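import Pool.Agent.Helper74.EV5.Mix
import Pool.Agent.Helper57.EV4.ToHyp

/-!
# EV4d: from a state sum `p(z) = ∑ z ^ u (1 + z ^ 2) ^ j` to the coefficients of `p`
-/

set_option autoImplicit false

namespace Pool.Agent.Helper74.EV5

open Polynomial Pool.Agent.Helper57.EV Pool.Agent.Helper57.EV2 Pool.Agent.Helper57.EV4 Pool.Agent.Helper74.EV4

/-- the value at `√t` -/
theorem aeval_sqrt {p : ℤ[X]} (hpar : ∀ j k, p.coeff j ≠ 0 → p.coeff k ≠ 0 → j % 2 = k % 2) (h0 : p ≠ 0) {t : ℝ} (ht : 0 < t) :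
    (aeval √t p : ℝ) = √t ^ p.natTrailingDegree * (half p).eval t := by
  have h3 := aeval_eq hpar h0 ((√t : ℝ) : ℂ)
  have h4 : aeval ((√t : ℝ) : ℂ) p = ((aeval (√t) p : ℝ) : ℂ) := by
    rw [← Complex.coe_algebraMap, aeval_algebraMap_apply]
  have h5 : aeval (((√t : ℝ) : ℂ) ^ 2) (half p) = (((half p).eval t : ℝ) : ℂ) := by
    rw [← Complex.ofReal_pow, Real.sq_sqrt ht.le, ← Complex.coe_algebraMap, aeval_algebraMap_apply, coe_aeval_eq_eval]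
  rw [h4, h5, ← Complex.ofReal_pow, ← Complex.ofReal_mul] at h3
  exact Complex.ofReal_injective h3

variable {ι : Type*} {S : Finset ι} {u j : ι → ℕ}

/-- the real values of the state sum -/
theorem real_sum {p : ℤ[X]} (hF : ∀ z : ℂ, aeval z p = ∑ i ∈ S, z ^ u i * (1 + z ^ 2) ^ j i) (r : ℝ) :
    (aeval r p : ℝ) = ∑ i ∈ S, r ^ u i * (1 + r ^ 2) ^ j i := by
  have h1 := hF (r : ℂ)
  have h4 : aeval (r : ℂ) p = ((aeval r p : ℝ) : ℂ) := by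
    rw [← Complex.coe_algebraMap, aeval_algebraMap_apply]
  rw [h4] at h1
  exact_mod_cast h1

/-- the weights -/
noncomputable def wgt (p : ℤ[X]) (u j : ι → ℕ) (i : ι) (t : ℝ) : ℝ := √t ^ u i * (1 + t) ^ j i / √t ^ p.natTrailingDegree

/-- **A state sum is a mixture.** -/
theorem mix_half {p : ℤ[X]} (hpar : ∀ j k, p.coeff j ≠ 0 → p.coeff k ≠ 0 → j % 2 = k % 2) (h0 : p ≠ 0)
    (hF : ∀ z : ℂ, aeval z p = ∑ i ∈ S, z ^ u i * (1 + z ^ 2) ^ j i) : Mix (half p) S (wgt p u j) j := by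
  refine ⟨fun i _ t ht => ?_, fun t ht => ?_, fun t θ ht => ?_⟩
  · unfold wgt
    positivity
  · have hst : 0 < √t := Real.sqrt_pos.2 ht
    have h1 := aeval_sqrt hpar h0 ht
    rw [real_sum hF, Real.sq_sqrt ht.le] at h1
    unfold wgt
    rw [← Finset.sum_div, h1]
    field_simp
  · have hst : 0 < √t := Real.sqrt_pos.2 ht
    obtain ⟨z, hz⟩ : ∃ z : ℂ, z = (√t : ℂ) * Complex.exp ((θ / 2 : ℝ) * Complex.I) := ⟨_, rfl⟩
    have hnz : ‖z‖ = √t := by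
      rw [hz, norm_mul, Complex.norm_exp_ofReal_mul_I, mul_one, Complex.norm_real, Real.norm_of_nonneg hst.le]
    have hz2 : z ^ 2 = EVC.pt t θ := by
      unfold EVC.pt
      rw [hz, mul_pow, ← Complex.ofReal_pow, Real.sq_sqrt ht.le, ← Complex.exp_nat_mul]
      congr 2
      push_cast
      ring
    have h1 := aeval_eq hpar h0 z
    have h2 : ‖aeval z p‖ = √t ^ p.natTrailingDegree * ‖aeval (EVC.pt t θ) (half p)‖ := by
      rw [h1, norm_mul, norm_pow, hnz, hz2]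
    have h3 : ‖aeval z p‖ ≤ ∑ i ∈ S, √t ^ u i * ‖1 + EVC.pt t θ‖ ^ j i := by
      rw [hF z]
      refine (norm_sum_le _ _).trans (le_of_eq ?_)
      refine Finset.sum_congr rfl fun i _ => ?_
      rw [norm_mul, norm_pow, norm_pow, hnz, hz2]
    have h4 : 0 < √t ^ p.natTrailingDegree := by positivity
    have h5 : ‖aeval (EVC.pt t θ) (half p)‖ = ‖aeval z p‖ / √t ^ p.natTrailingDegree := by
      rw [h2]
      field_simp
    rw [h5, div_le_iff₀ h4, Finset.sum_mul]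
    refine h3.trans (le_of_eq (Finset.sum_congr rfl fun i _ => ?_))
    have h6 : (1 + t) ^ j i ≠ 0 := by positivity
    unfold wgt
    rw [div_pow]
    field_simp

/-- the tail of the mixture in terms of the state sum -/
theorem tail_half {p : ℤ[X]} (hpar : ∀ j k, p.coeff j ≠ 0 → p.coeff k ≠ 0 → j % 2 = k % 2) (h0 : p ≠ 0) {k t e : ℝ}
    (ht : 0 < t) (h : ∑ i ∈ S with (j i : ℝ) ≤ k, √t ^ u i * (1 + t) ^ j i ≤ e * (aeval √t p : ℝ)) :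
    tail S (wgt p u j) j k t ≤ e * (half p).eval t := by
  have hst : 0 < √t := Real.sqrt_pos.2 ht
  unfold tail wgt
  rw [← Finset.sum_div, div_le_iff₀ (by positivity)]
  rw [aeval_sqrt hpar h0 ht] at h
  refine h.trans (le_of_eq ?_)
  ring

/-- **The input of the core for `half p`.** -/
theorem inp_half {p : ℤ[X]} (nn : ∀ k, 0 ≤ p.coeff k) (hpar : ∀ j k, p.coeff j ≠ 0 → p.coeff k ≠ 0 → j % 2 = k % 2) (h0 : p ≠ 0)
    {L : ℕ} (hL : p.natDegree ≤ L) {N η γ r₁ : ℝ} (hN : 8 ≤ N) (hr₁ : 0 < r₁)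
    (zf : ∀ z : ℂ, aeval z p = 0 → (z.re = 0 ∧ |z.im| ≤ 2) ∨ (8 ≤ N * |z.im| ∧ 4 * |z.re| ≤ N * |z.im| ∧ ‖z‖ ≤ N / 2))
    (hF : ∀ z : ℂ, aeval z p = ∑ i ∈ S, z ^ u i * (1 + z ^ 2) ^ j i)
    (tl : ∀ t : ℝ, r₁ ≤ t → t ≤ r₁⁻¹ →
      ∑ i ∈ S with (j i : ℝ) ≤ η * L, √t ^ u i * (1 + t) ^ j i ≤ Real.exp (-(γ * L)) * (aeval √t p : ℝ)) :
    Inp (4 / (N + 4)) (64 / N ^ 2) (N ^ 2) η γ r₁ L (half p) S (wgt p u j) j := by
  have hN0 : 0 < N := by linarith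
  -- the alternative for the roots
  have key : ∀ ρ ∈ EVC.Z (half p), (ρ.im = 0 ∧ -4 ≤ ρ.re ∧ ρ.re ≤ 0) ∨
      (64 ≤ N ^ 2 * ‖ρ‖ ∧ (N ^ 2 + 16) * ρ.re ≤ (N ^ 2 - 16) * ‖ρ‖ ∧ ‖ρ‖ ≤ N ^ 2 / 4) := by
    intro ρ hρ
    obtain ⟨z, hz, hz0⟩ := root_half hpar h0 hρ
    exact sq_alt hz (zf z hz0)
  have hne : ∀ ρ ∈ EVC.Z (half p), ρ ≠ 0 := by
    rintro ρ hρ rfl
    unfold EVC.Z at hρ
    have h2 := (mem_roots'.1 hρ).2
    rw [IsRoot.def, ← coeff_zero_eq_eval_zero, coeff_map] at h2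
    have h3 := half_one nn h0
    have h4 : (half p).coeff 0 = 0 := by
      have := h2
      simpa using this
    rw [h4] at h3
    linarith
  have hdeg : 2 * (half p).natDegree ≤ L := by
    have := half_deg h0
    omega
  have hnice : EVC.Nice L (half p) := ⟨half_nn nn, half_one nn h0, hdeg⟩
  refine { toNice := hnice, toMix := mix_half hpar h0 hF, dist := ?_, far := ?_, neg := ?_, tl := ?_ }
  · intro ρ hρ r hr
    refine dist_of hN ?_ hr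
    rcases key ρ hρ with ⟨h1, -, h2⟩ | ⟨-, h1, -⟩
    · exact Or.inl ⟨h1, h2⟩
    · exact Or.inr h1
  · intro ρ hρ
    rcases key ρ hρ with ⟨h1, h2, h3⟩ | ⟨-, -, h1⟩
    · have h4 : ‖ρ‖ = |ρ.re| := by
        have : ρ = (ρ.re : ℂ) := Complex.ext rfl (by rw [h1]; simp)
        rw [this, Complex.norm_real, Real.norm_eq_abs, Complex.ofReal_re]
      rw [h4, abs_of_nonpos h3]
      nlinarith
    · nlinarith [sq_nonneg N]
  · intro ρ hρ hρc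
    rcases key ρ hρ with ⟨h1, -, h3⟩ | ⟨h1, -, -⟩
    · refine ⟨h1, lt_of_le_of_ne h3 fun h => hne ρ hρ (Complex.ext h h1)⟩
    · exfalso
      rw [lt_div_iff₀ (by positivity)] at hρc
      linarith
  · intro t ht1 ht2
    exact tail_half hpar h0 (lt_of_lt_of_le hr₁ ht1) (tl t ht1 ht2)

/-- **Log-concavity from a state sum with a small lower tail**, from the core of E5. -/
theorem fin_mix_of
    (E5 : ∀ b c T κ : ℝ, Pool.Agent.Helper85.E5.Adm b c T κ → ∃ L₀ : ℕ, ∀ L : ℕ, L₀ ≤ L → ∀ P : ℝ[X],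
      Pool.Agent.Helper85.E5.Hyp b c T κ L P → ∀ k : ℕ, 1 ≤ k → P.coeff (k - 1) * P.coeff (k + 1) ≤ P.coeff k ^ 2)
    {N η : ℝ} (hN : 8 ≤ N) (hη : 0 < η) (hη1 : η ≤ 1) : ∃ r₁ : ℝ, 0 < r₁ ∧ r₁ ≤ 1 ∧ ∀ γ : ℝ, 0 < γ → ∃ L₀ : ℕ, ∀ L : ℕ, L₀ ≤ L →
      ∀ p : ℤ[X], (∀ k, 0 ≤ p.coeff k) → (∀ j k, p.coeff j ≠ 0 → p.coeff k ≠ 0 → j % 2 = k % 2) → p ≠ 0 → p.natDegree ≤ L →
      (∀ z : ℂ, aeval z p = 0 → (z.re = 0 ∧ |z.im| ≤ 2) ∨ (8 ≤ N * |z.im| ∧ 4 * |z.re| ≤ N * |z.im| ∧ ‖z‖ ≤ N / 2)) →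
      ∀ (ι : Type) (S : Finset ι) (u j : ι → ℕ), (∀ z : ℂ, aeval z p = ∑ i ∈ S, z ^ u i * (1 + z ^ 2) ^ j i) →
      (∀ t : ℝ, r₁ ≤ t → t ≤ r₁⁻¹ →
        ∑ i ∈ S with (j i : ℝ) ≤ η * L, √t ^ u i * (1 + t) ^ j i ≤ Real.exp (-(γ * L)) * (aeval √t p : ℝ)) →
      ∀ k : ℕ, p.coeff k * p.coeff (k + 4) ≤ p.coeff (k + 2) ^ 2 := by
  have hadm : Adm (4 / (N + 4)) (64 / N ^ 2) (N ^ 2) η := by
    refine ⟨by positivity, ?_, by positivity, ?_, ?_, hη, hη1⟩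
    · rw [div_le_one (by linarith)]
      linarith
    · rw [div_le_one (by positivity)]
      nlinarith
    · nlinarith
  obtain ⟨r₁, hr0, hr1, hcore⟩ := core_mix_of E5 _ _ _ _ hadm
  refine ⟨r₁, hr0, hr1, fun γ hγ => ?_⟩
  obtain ⟨L₀, hL₀⟩ := hcore γ hγ
  refine ⟨L₀, fun L hL p nn hpar h0 hdeg zf ι S u j hF tl k => ?_⟩
  exact lc_of hpar h0 (hL₀ L hL (half p) ι S (wgt p u j) j (inp_half nn hpar h0 hdeg hN hr0 zf hF tl)) k

end Pool.Agent.Helper74.EV5
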