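import Pool.Agent.Helper74.EV5.H6
import Pool.Agent.Helper3.EVC.E14
import Pool.Agent.Helper3.EVC.E15

/-!
# EV4d core: decay for all radii from the variance and the decay away from the axis on a compact interval
-/

set_option autoImplicit false

namespace Pool.Agent.Helper74.EV5

open Polynomial EVC Pool.Agent.Helper74.EV4

theorem factor_gen (q : ℂ) (u : ℝ) : ‖1 - 2 * (u : ℂ) * q‖ ≤ Real.exp (-(2 * u * q.re) + 2 * u ^ 2 * ‖q‖ ^ 2) := by
  have h1 : ‖1 - 2 * (u : ℂ) * q‖ ^ 2 = 1 - 4 * u * q.re + 4 * u ^ 2 * ‖q‖ ^ 2 := by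
    rw [← Complex.normSq_eq_norm_sq, ← Complex.normSq_eq_norm_sq, Complex.normSq_apply, Complex.normSq_apply]
    simp only [Complex.sub_re, Complex.one_re, Complex.mul_re, Complex.re_ofNat, Complex.ofReal_re, Complex.im_ofNat,
      Complex.ofReal_im, Complex.mul_im, Complex.sub_im, Complex.one_im]
    ring
  have h2 : ‖1 - 2 * (u : ℂ) * q‖ ^ 2 ≤ (Real.exp (-(2 * u * q.re) + 2 * u ^ 2 * ‖q‖ ^ 2)) ^ 2 := by
    rw [h1, ← Real.exp_nat_mul]
    have h3 := Real.add_one_le_exp (((2 : ℕ) : ℝ) * (-(2 * u * q.re) + 2 * u ^ 2 * ‖q‖ ^ 2))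
    push_cast at h3 ⊢
    linarith
  exact le_of_sq_le_sq h2 (Real.exp_pos _).le

/-- from the factors to the polynomial -/
theorem dec_of_factors {L : ℕ} {P : ℝ[X]} (hP : Nice L P) {r θ A : ℝ} (hr : 0 < r) (g : ℂ → ℝ)
    (hg : ∀ ρ ∈ Z P, ‖1 - 2 * ((1 - Real.cos θ : ℝ) : ℂ) * (p r ρ * (1 - p r ρ))‖ ≤ Real.exp (g ρ))
    (hA : ((Z P).map g).sum ≤ 2 * A) : ‖aeval (pt r θ) P‖ ≤ Real.exp A * P.eval r := by
  have hPr := hP.eval_pos hr
  have h1 := sq_formula hP θ hr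
  have h2 := congrArg norm h1
  rw [Complex.norm_real, norm_mul, Complex.norm_real, Real.norm_of_nonneg (sq_nonneg _),
    Real.norm_of_nonneg (sq_nonneg _)] at h2
  have h3 : ‖((Z P).map fun ρ => 1 - 2 * (1 - (Real.cos θ : ℂ)) * (p r ρ * (1 - p r ρ))).prod‖ ≤
      Real.exp ((Z P).map g).sum := by
    refine Pool.Agent.Helper3.E4.norm_prod_le _ _ _ fun ρ hρ => ?_
    have e1 : (1 - (Real.cos θ : ℂ)) = ((1 - Real.cos θ : ℝ) : ℂ) := by push_cast; rfl
    rw [e1]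
    exact hg ρ hρ
  have h5 : ‖aeval (pt r θ) P‖ ^ 2 ≤ (Real.exp A * P.eval r) ^ 2 := by
    rw [h2, mul_pow, ← Real.exp_nat_mul, Nat.cast_ofNat, mul_comm]
    exact mul_le_mul_of_nonneg_right (h3.trans (Real.exp_le_exp.2 hA)) (sq_nonneg _)
  exact le_of_sq_le_sq h5 (by positivity)

theorem wt_le_self {r : ℝ} (hr : 0 < r) : wt r ≤ r := by
  unfold wt
  rw [div_le_iff₀ (by positivity)]
  have : 1 ≤ (1 + r) ^ 2 := by nlinarith
  nlinarith

theorem wt_le_inv {r : ℝ} (hr : 0 < r) : wt r ≤ 1 / r := by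
  unfold wt
  rw [div_le_div_iff₀ (by positivity) hr]
  nlinarith

theorem wt_le_quarter {r : ℝ} (hr : 0 < r) : wt r ≤ 1 / 4 := by
  unfold wt
  rw [div_le_div_iff₀ (by positivity) (by norm_num)]
  nlinarith [sq_nonneg (r - 1)]

/-- **Decay at small radii.** -/
theorem dec_low {b c T κ r₁ : ℝ} (h : Adm b c T κ) {L : ℕ} {P : ℝ[X]} (hP : H6 b c T κ r₁ L P)
    (hr1 : r₁ ≤ r1 c κ) (hr1i : r1 c κ ≤ r₁⁻¹) {r θ : ℝ} (hr : 0 < r) (hra : 10 * r ≤ c0 c κ)
    (hrb : 144 * r ≤ κ * c0 c κ ^ 2) :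
    ‖aeval (pt r θ) P‖ ≤ Real.exp (-(κ / 16 * L * wt r * (1 - Real.cos θ))) * P.eval r := by
  classical
  have hc0 := c0_pos h
  have hκ := h.hκ
  have hlam := lam_ge6 h hP hr1 hr1i
  have hPr := hP.toNice.eval_pos hr
  obtain ⟨u, hu⟩ : ∃ u, u = 1 - Real.cos θ := ⟨_, rfl⟩
  have hu0 : 0 ≤ u := by rw [hu]; linarith [Real.cos_le_one θ]
  have hu2 : u ≤ 2 := by rw [hu]; linarith [Real.neg_one_le_cos θ]
  rw [← hu]
  have hL : (0 : ℝ) ≤ L := Nat.cast_nonneg L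
  obtain ⟨d, hd⟩ : ∃ d, d = c0 c κ := ⟨_, rfl⟩
  rw [← hd] at hc0 hra hrb
  have hmain := dec_of_factors hP.toNice (θ := θ) (A := -(κ / 16 * L * r * u)) hr
    (fun ρ => if c0 c κ ≤ ‖ρ‖ then -(2 * u) * (r * (-ρ⁻¹).re - 18 * r ^ 2 / d ^ 2) else 0) (by
      intro ρ hρ
      rw [← hu]
      by_cases h1 : c0 c κ ≤ ‖ρ‖
      · rw [if_pos h1]
        refine (factor_gen _ u).trans (Real.exp_le_exp.2 ?_)
        rw [← hd] at h1
        have hn : 0 < ‖ρ‖ := lt_of_lt_of_le hc0 h1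
        have h2 := far_root hr (ρ := ρ) (by linarith)
        have h3 : 10 * r ^ 2 / ‖ρ‖ ^ 2 ≤ 10 * r ^ 2 / d ^ 2 := by gcongr
        have h4 := (neg_le_abs _).trans ((Complex.abs_re_le_norm _).trans (h2.trans h3))
        rw [Complex.sub_re, Complex.re_ofReal_mul] at h4
        have h5 : ‖p r ρ * (1 - p r ρ)‖ ≤ 2 * r / d := by
          have h6 : ‖(r : ℂ) * (-ρ⁻¹)‖ ≤ r / d := by
            rw [norm_mul, Complex.norm_real, Real.norm_of_nonneg hr.le, norm_neg, norm_inv, ← div_eq_mul_inv]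
            gcongr
          have h7 : ‖p r ρ * (1 - p r ρ)‖ ≤ ‖(r : ℂ) * (-ρ⁻¹)‖ + 10 * r ^ 2 / d ^ 2 := by
            have h8 : p r ρ * (1 - p r ρ) = (r : ℂ) * (-ρ⁻¹) + (p r ρ * (1 - p r ρ) - (r : ℂ) * (-ρ⁻¹)) := by ring
            rw [h8]
            exact (norm_add_le _ _).trans (add_le_add_right (h2.trans h3) _)
          have h9 : 10 * r ^ 2 / d ^ 2 ≤ r / d := by
            rw [div_le_div_iff₀ (by positivity) hc0]
            nlinarith [mul_le_mul_of_nonneg_left hra (by positivity : 0 ≤ r * d)]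
          have h10 : 2 * r / d = r / d + r / d := by ring
          linarith
        have h6 : ‖p r ρ * (1 - p r ρ)‖ ^ 2 ≤ 4 * (r ^ 2 / d ^ 2) := by
          have h7 := pow_le_pow_left₀ (norm_nonneg _) h5 2
          have h8 : (2 * r / d) ^ 2 = 4 * (r ^ 2 / d ^ 2) := by
            rw [div_pow, mul_pow]
            ring
          linarith
        obtain ⟨E, hE⟩ : ∃ E, E = r ^ 2 / d ^ 2 := ⟨_, rfl⟩
        have e1 : 10 * r ^ 2 / d ^ 2 = 10 * E := by rw [hE]; ring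
        have e2 : 18 * r ^ 2 / d ^ 2 = 18 * E := by rw [hE]; ring
        rw [e1] at h4
        rw [← hE] at h6
        rw [e2]
        have hE0 : 0 ≤ E := by rw [hE]; positivity
        have h7 : 2 * u ^ 2 * ‖p r ρ * (1 - p r ρ)‖ ^ 2 ≤ 16 * u * E := by
          have h8 : u ^ 2 * ‖p r ρ * (1 - p r ρ)‖ ^ 2 ≤ (2 * u) * (4 * E) :=
            mul_le_mul (by nlinarith) h6 (by positivity) (by positivity)
          linarith
        have h8 : 2 * u * (r * (-ρ⁻¹).re - 10 * E) ≤ 2 * u * (p r ρ * (1 - p r ρ)).re :=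
          mul_le_mul_of_nonneg_left (by linarith) (by positivity)
        linarith
      · rw [if_neg h1, Real.exp_zero]
        push Not at h1
        obtain ⟨him, hre⟩ := hP.neg ρ hρ (lt_of_lt_of_le h1 (c0_le h))
        obtain ⟨h2, h3⟩ := Pool.Agent.Helper3.E4.q_near hr him hre
        obtain ⟨q, hq⟩ : ∃ q, q = ‖p r ρ * (1 - p r ρ)‖ := ⟨_, rfl⟩
        rw [h2, ← hq]
        rw [← hq] at h3
        have hq0 : 0 ≤ q := by rw [hq]; exact norm_nonneg _
        have e1 : 1 - 2 * (u : ℂ) * (q : ℂ) = ((1 - 2 * u * q : ℝ) : ℂ) := by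
          push_cast
          ring
        have h4 : 2 * u * q ≤ 1 := by nlinarith
        have h5 : 0 ≤ 2 * u * q := by positivity
        rw [e1, Complex.norm_real, Real.norm_of_nonneg (by linarith)]
        linarith) (by
      rw [sum_ite_filter]
      change ((fr c κ P).map fun ρ => -(2 * u) * (r * (-ρ⁻¹).re - 18 * r ^ 2 / d ^ 2)).sum ≤ _
      have e1 : ((fr c κ P).map fun ρ => -(2 * u) * (r * (-ρ⁻¹).re - 18 * r ^ 2 / d ^ 2)) =
          (fr c κ P).map fun ρ => -(2 * u * r) * (-ρ⁻¹).re + 2 * u * (18 * r ^ 2 / d ^ 2) := by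
        refine Multiset.map_congr rfl fun ρ _ => ?_
        ring
      rw [e1, Multiset.sum_map_add, Multiset.sum_map_mul_left, Multiset.map_const', Multiset.sum_replicate,
        nsmul_eq_mul]
      have h1 : Multiset.card (fr c κ P) ≤ Multiset.card (Z P) := by
        unfold fr
        exact Multiset.card_le_card (Multiset.filter_le _ _)
      have h2 := card_Z_le hP.toNice
      have h3 : (Multiset.card (fr c κ P) : ℝ) ≤ Multiset.card (Z P) := by exact_mod_cast h1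
      have h4 : (Multiset.card (fr c κ P) : ℝ) * (2 * u * (18 * r ^ 2 / d ^ 2)) ≤
          L / 2 * (2 * u * (18 * r ^ 2 / d ^ 2)) :=
        mul_le_mul_of_nonneg_right (by linarith) (by positivity)
      have h5 : 2 * u * r * (κ / 8 * L) ≤ 2 * u * r * ((fr c κ P).map fun ρ => (-ρ⁻¹).re).sum :=
        mul_le_mul_of_nonneg_left hlam (by positivity)
      have h6 : 18 * r ^ 2 / d ^ 2 ≤ κ / 8 * r := by
        rw [div_le_iff₀ (by positivity)]
        nlinarith [mul_le_mul_of_nonneg_left hrb hr.le]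
      have h7 : (L : ℝ) / 2 * (2 * u * (18 * r ^ 2 / d ^ 2)) ≤ L / 2 * (2 * u * (κ / 8 * r)) := by gcongr
      have h8 : -(2 * u * r) * ((fr c κ P).map fun ρ => (-ρ⁻¹).re).sum ≤ -(2 * u * r * (κ / 8 * L)) := by
        linarith
      refine (add_le_add h8 (h4.trans h7)).trans (le_of_eq ?_)
      ring)
  refine hmain.trans (mul_le_mul_of_nonneg_right (Real.exp_le_exp.2 (neg_le_neg ?_)) hPr.le)
  have hw := wt_le_self hr
  have : κ / 16 * L * wt r ≤ κ / 16 * L * r := mul_le_mul_of_nonneg_left hw (by positivity)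
  exact mul_le_mul_of_nonneg_right this hu0

/-- **Decay at large radii.** -/
theorem dec_top {b c T κ r₁ : ℝ} (h : Adm b c T κ) {L : ℕ} {P : ℝ[X]} (hP : H6 b c T κ r₁ L P)
    (hr1 : r₁ ≤ 1) (hr1i : 40 * T ^ 2 / κ ≤ r₁⁻¹) {r θ : ℝ} (hrb : 144 * T ^ 2 / κ ≤ r) :
    ‖aeval (pt r θ) P‖ ≤ Real.exp (-(κ / 16 * L * wt r * (1 - Real.cos θ))) * P.eval r := by
  have hκ := h.hκ
  have hT := h.hT
  have hT0 : 0 < T := by linarith
  have hlam := sum_neg_ge6 h hP hr1 hr1i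
  have hr144 : 144 * T ^ 2 ≤ r := by
    refine le_trans ?_ hrb
    rw [le_div_iff₀ hκ]
    have := h.hκ1
    nlinarith [sq_nonneg T]
  have hT2 : T ≤ T ^ 2 := by nlinarith
  have hr0 : 0 < r := by nlinarith
  have hPr := hP.toNice.eval_pos hr0
  obtain ⟨u, hu⟩ : ∃ u, u = 1 - Real.cos θ := ⟨_, rfl⟩
  have hu0 : 0 ≤ u := by rw [hu]; linarith [Real.cos_le_one θ]
  have hu2 : u ≤ 2 := by rw [hu]; linarith [Real.neg_one_le_cos θ]
  rw [← hu]
  have hL : (0 : ℝ) ≤ L := Nat.cast_nonneg L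
  obtain ⟨E, hE⟩ : ∃ E, E = T ^ 2 / r ^ 2 := ⟨_, rfl⟩
  have hE0 : 0 ≤ E := by rw [hE]; positivity
  have hmain := dec_of_factors hP.toNice (θ := θ) (A := -(κ / 16 * L * (1 / r) * u)) hr0
    (fun ρ => -(2 * u) * ((-ρ).re * (1 / r) - 18 * E)) (by
      intro ρ hρ
      rw [← hu]
      refine (factor_gen _ u).trans (Real.exp_le_exp.2 ?_)
      have h2 := top_root hT (r := r) (by nlinarith) (hP.far ρ hρ)
      have h4 := (neg_le_abs _).trans ((Complex.abs_re_le_norm _).trans h2)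
      rw [Complex.sub_re, Complex.re_ofReal_mul] at h4
      have h41 : (-ρ).re * (1 / r) - 10 * E ≤ (p r ρ * (1 - p r ρ)).re := by
        have h42 : (-ρ).re - 10 * T ^ 2 / r ≤ r * (p r ρ * (1 - p r ρ)).re := by linarith
        have h43 : ((-ρ).re - 10 * T ^ 2 / r) * (1 / r) ≤ r * (p r ρ * (1 - p r ρ)).re * (1 / r) :=
          mul_le_mul_of_nonneg_right h42 (by positivity)
        have h44 : ((-ρ).re - 10 * T ^ 2 / r) * (1 / r) = (-ρ).re * (1 / r) - 10 * E := by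
          rw [hE]
          field_simp
        have h45 : r * (p r ρ * (1 - p r ρ)).re * (1 / r) = (p r ρ * (1 - p r ρ)).re := by
          field_simp
        rw [h44, h45] at h43
        exact h43
      have h5 : ‖p r ρ * (1 - p r ρ)‖ ≤ 2 * T / r := by
        have h6 : ‖(r : ℂ) * (p r ρ * (1 - p r ρ))‖ ≤ 2 * T := by
          have h7 : (r : ℂ) * (p r ρ * (1 - p r ρ)) = -ρ + ((r : ℂ) * (p r ρ * (1 - p r ρ)) - -ρ) := by ring
          rw [h7]
          refine (norm_add_le _ _).trans ?_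
          have h8 : 10 * T ^ 2 / r ≤ T := by
            rw [div_le_iff₀ hr0]
            nlinarith
          rw [norm_neg]
          linarith [hP.far ρ hρ]
        rw [norm_mul, Complex.norm_real, Real.norm_of_nonneg hr0.le] at h6
        rw [le_div_iff₀ hr0]
        linarith
      have h6 : ‖p r ρ * (1 - p r ρ)‖ ^ 2 ≤ 4 * E := by
        have h7 := pow_le_pow_left₀ (norm_nonneg _) h5 2
        have h8 : (2 * T / r) ^ 2 = 4 * E := by
          rw [hE, div_pow, mul_pow]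
          ring
        linarith
      have h7 : 2 * u ^ 2 * ‖p r ρ * (1 - p r ρ)‖ ^ 2 ≤ 16 * u * E := by
        have h8 : u ^ 2 * ‖p r ρ * (1 - p r ρ)‖ ^ 2 ≤ (2 * u) * (4 * E) :=
          mul_le_mul (by nlinarith) h6 (by positivity) (by positivity)
        linarith
      have h8 : 2 * u * ((-ρ).re * (1 / r) - 10 * E) ≤ 2 * u * (p r ρ * (1 - p r ρ)).re :=
        mul_le_mul_of_nonneg_left h41 (by positivity)
      linarith) (by
      have e1 : ((Z P).map fun ρ => -(2 * u) * ((-ρ).re * (1 / r) - 18 * E)) =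
          (Z P).map fun ρ => -(2 * u * (1 / r)) * (-ρ).re + 2 * u * (18 * E) := by
        refine Multiset.map_congr rfl fun ρ _ => ?_
        ring
      rw [e1, Multiset.sum_map_add, Multiset.sum_map_mul_left, Multiset.map_const', Multiset.sum_replicate,
        nsmul_eq_mul]
      have h2 := card_Z_le hP.toNice
      have h4 : (Multiset.card (Z P) : ℝ) * (2 * u * (18 * E)) ≤ L / 2 * (2 * u * (18 * E)) :=
        mul_le_mul_of_nonneg_right (by linarith) (by positivity)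
      have h5 : 2 * u * (1 / r) * (κ / 8 * L) ≤ 2 * u * (1 / r) * ((Z P).map fun ρ => (-ρ).re).sum :=
        mul_le_mul_of_nonneg_left hlam (by positivity)
      have h6 : 18 * E ≤ κ / 8 * (1 / r) := by
        rw [hE, mul_one_div, ← mul_div_assoc, div_div, div_le_div_iff₀ (by positivity) (by positivity)]
        rw [div_le_iff₀ hκ] at hrb
        nlinarith [mul_le_mul_of_nonneg_left hrb hr0.le]
      have h7 : (L : ℝ) / 2 * (2 * u * (18 * E)) ≤ L / 2 * (2 * u * (κ / 8 * (1 / r))) := by gcongr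
      have h8 : -(2 * u * (1 / r)) * ((Z P).map fun ρ => (-ρ).re).sum ≤ -(2 * u * (1 / r) * (κ / 8 * L)) := by
        linarith
      refine (add_le_add h8 (h4.trans h7)).trans (le_of_eq ?_)
      ring)
  refine hmain.trans (mul_le_mul_of_nonneg_right (Real.exp_le_exp.2 (neg_le_neg ?_)) hPr.le)
  have hw := wt_le_inv hr0
  have : κ / 16 * L * wt r ≤ κ / 16 * L * (1 / r) := mul_le_mul_of_nonneg_left hw (by positivity)
  exact mul_le_mul_of_nonneg_right this hu0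

/-- **Decay near the axis.** -/
theorem dec_near {b c T κ : ℝ} (h : Adm b c T κ) : ∃ θ₀ : ℝ, 0 < θ₀ ∧ θ₀ ≤ 1 ∧ ∀ (r₁ : ℝ) (L : ℕ) (P : ℝ[X]),
    H6 b c T κ r₁ L P → ∀ r θ : ℝ, 0 < r → r₁ ≤ r → r ≤ r₁⁻¹ → |θ| ≤ θ₀ →
      ‖aeval (pt r θ) P‖ ≤ Real.exp (-(κ / 2 * L * wt r * (1 - Real.cos θ))) * P.eval r := by
  have hK := Pool.Agent.Helper3.E4.K0_pos h
  have hκ := h.hκ
  have hb := h.hb
  obtain ⟨θ₂, hθ₂, K, hK1, hlf⟩ := local_form (B := 1 / b) (by
    rw [le_div_iff₀ hb]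
    linarith [h.hb1])
  obtain ⟨C3, hC3⟩ : ∃ C3, C3 = K * (1 + Pool.Agent.Helper3.E4.K0 b c T / κ) := ⟨_, rfl⟩
  have hC30 : 0 < C3 := by rw [hC3]; positivity
  refine ⟨min (min θ₂ 1) (1 / (4 * C3)), lt_min (lt_min hθ₂ one_pos) (by positivity),
    (min_le_left _ _).trans (min_le_right _ _), ?_⟩
  intro r₁ L P hP r θ hr hra hrb hθ
  have hθ1 : |θ| ≤ θ₂ := hθ.trans ((min_le_left _ _).trans (min_le_left _ _))
  have hθ2 : 4 * C3 * |θ| ≤ 1 := by
    have h1 : |θ| ≤ 1 / (4 * C3) := hθ.trans (min_le_right _ _)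
    rw [le_div_iff₀ (by positivity)] at h1
    linarith
  have hPr := hP.toNice.eval_pos hr
  obtain ⟨w, hw1, hw2⟩ := hlf L P hP.toNice r hr (fun ρ hρ => norm_p_le6 h hP hr hρ) θ hθ1
  have hV := hP.var r hra hrb
  have hW : W P r ≤ (1 + Pool.Agent.Helper3.E4.K0 b c T / κ) * V P r := by
    have h1 := W_le_add6 h hP hr
    have h3 : Pool.Agent.Helper3.E4.K0 b c T / κ * (κ * L * wt r) ≤ Pool.Agent.Helper3.E4.K0 b c T / κ * V P r :=
      mul_le_mul_of_nonneg_left hV (by positivity)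
    have h4 : Pool.Agent.Helper3.E4.K0 b c T / κ * (κ * L * wt r) =
        Pool.Agent.Helper3.E4.K0 b c T * (L * wt r) := by
      field_simp
    linarith
  have hwt := Pool.Agent.Helper3.E4.wt_pos hr
  have hV0 : 0 ≤ V P r := le_trans (by positivity) hV
  have hw3 : ‖w‖ ≤ V P r * θ ^ 2 / 4 := by
    have h2 : 0 ≤ |θ| ^ 3 := by positivity
    calc ‖w‖ ≤ K * W P r * |θ| ^ 3 := hw1
      _ ≤ K * ((1 + Pool.Agent.Helper3.E4.K0 b c T / κ) * V P r) * |θ| ^ 3 := by gcongr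
      _ = (V P r * |θ| ^ 2) * (C3 * |θ|) := by rw [hC3]; ring
      _ ≤ (V P r * |θ| ^ 2) * (1 / 4) := mul_le_mul_of_nonneg_left (by linarith) (by positivity)
      _ = V P r * θ ^ 2 / 4 := by rw [sq_abs]; ring
  rw [hw2, norm_mul, Complex.norm_real, Real.norm_of_nonneg hPr.le, Complex.norm_exp, mul_comm]
  refine mul_le_mul_of_nonneg_right (Real.exp_le_exp.2 ?_) hPr.le
  have hre : ((θ : ℂ) * (mean P r : ℂ) * Complex.I - (θ : ℂ) ^ 2 / 2 * (V P r : ℂ) + w).re =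
      -(θ ^ 2 / 2 * V P r) + w.re := by
    have e1 : (θ : ℂ) ^ 2 / 2 * (V P r : ℂ) = ((θ ^ 2 / 2 * V P r : ℝ) : ℂ) := by
      push_cast
      ring
    have e2 : ((θ : ℂ) * (mean P r : ℂ) * Complex.I).re = 0 := by
      have : (θ : ℂ) * (mean P r : ℂ) * Complex.I = ((θ * mean P r : ℝ) : ℂ) * Complex.I := by
        push_cast
        ring
      rw [this, Complex.re_ofReal_mul, Complex.I_re, mul_zero]
    rw [Complex.add_re, Complex.sub_re, e1, Complex.ofReal_re, e2]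
    ring
  rw [hre]
  have h5 : w.re ≤ V P r * θ ^ 2 / 4 := (Complex.re_le_norm w).trans hw3
  have h6 := Helper92.EV.one_sub_cos_upper θ
  have h7 : κ / 2 * L * wt r * (1 - Real.cos θ) ≤ V P r / 2 * (θ ^ 2 / 2) := by
    refine mul_le_mul (by linarith) h6 (by linarith [Real.cos_le_one θ]) (by positivity)
  linarith

/-- **Decay for all radii.** -/
theorem dec_all (b c T κ : ℝ) (h : Adm b c T κ) : ∃ r₁ θ₀ : ℝ, 0 < r₁ ∧ r₁ ≤ 1 ∧ 0 < θ₀ ∧ θ₀ ≤ 1 ∧
    ∀ g : ℝ, 0 < g → ∀ (L : ℕ) (P : ℝ[X]), H6 b c T κ r₁ L P →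
      (∀ r θ : ℝ, r₁ ≤ r → r ≤ r₁⁻¹ → θ₀ ≤ |θ| → |θ| ≤ Real.pi →
        ‖aeval (pt r θ) P‖ ≤ Real.exp (-(g * L)) * P.eval r) →
      ∀ r θ : ℝ, 0 < r → |θ| ≤ Real.pi →
        ‖aeval (pt r θ) P‖ ≤ Real.exp (-(min (κ / 16) (2 * g) * L * wt r * (1 - Real.cos θ))) * P.eval r := by
  have hκ := h.hκ
  have hT : 0 < T := lt_of_lt_of_le one_pos h.hT
  have hc0 := c0_pos h
  obtain ⟨θ₀, hθ0, hθ1, hnear⟩ := dec_near h
  have hrr := r1_pos h
  have hrr2 := r1_le h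
  have hc1 := h.hc1
  obtain ⟨r₁, hr₁⟩ : ∃ r₁, r₁ = min (min (c0 c κ / 10) (κ * c0 c κ ^ 2 / 144))
    (min (r1 c κ) (min (144 * T ^ 2 / κ)⁻¹ 1)) := ⟨_, rfl⟩
  have hr0 : 0 < r₁ := by
    rw [hr₁]
    exact lt_min (lt_min (by positivity) (by positivity)) (lt_min hrr (lt_min (by positivity) one_pos))
  have hA1 : r₁ ≤ c0 c κ / 10 := by rw [hr₁]; exact (min_le_left _ _).trans (min_le_left _ _)
  have hA2 : r₁ ≤ κ * c0 c κ ^ 2 / 144 := by rw [hr₁]; exact (min_le_left _ _).trans (min_le_right _ _)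
  have hA3 : r₁ ≤ r1 c κ := by rw [hr₁]; exact (min_le_right _ _).trans (min_le_left _ _)
  have hA4 : r₁ ≤ (144 * T ^ 2 / κ)⁻¹ := by
    rw [hr₁]
    exact (min_le_right _ _).trans ((min_le_right _ _).trans (min_le_left _ _))
  have hA5 : r₁ ≤ 1 := by
    rw [hr₁]
    exact (min_le_right _ _).trans ((min_le_right _ _).trans (min_le_right _ _))
  have hB4 : 144 * T ^ 2 / κ ≤ r₁⁻¹ := (le_inv_comm₀ hr0 (by positivity)).1 hA4
  have hB6 : 40 * T ^ 2 / κ ≤ r₁⁻¹ := by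
    refine le_trans ?_ hB4
    gcongr
    norm_num
  have hB5 : 1 ≤ r₁⁻¹ := (one_le_inv₀ hr0).2 hA5
  have hB3 : r1 c κ ≤ r₁⁻¹ := by linarith
  refine ⟨r₁, θ₀, hr0, hA5, hθ0, hθ1, fun g hg L P hP hdec r θ hr hθ => ?_⟩
  have hPr := hP.toNice.eval_pos hr
  have hwt := Pool.Agent.Helper3.E4.wt_pos hr
  have hL : (0 : ℝ) ≤ L := Nat.cast_nonneg L
  have hu0 : 0 ≤ 1 - Real.cos θ := by linarith [Real.cos_le_one θ]
  have hu2 : 1 - Real.cos θ ≤ 2 := by linarith [Real.neg_one_le_cos θ]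
  obtain ⟨m, hm⟩ : ∃ m, m = min (κ / 16) (2 * g) := ⟨_, rfl⟩
  rw [← hm]
  have hm1 : m ≤ κ / 16 := by rw [hm]; exact min_le_left _ _
  have hm2 : m ≤ 2 * g := by rw [hm]; exact min_le_right _ _
  have hm0 : 0 < m := by rw [hm]; exact lt_min (by positivity) (by positivity)
  have key : ∀ s : ℝ, m ≤ s → ‖aeval (pt r θ) P‖ ≤ Real.exp (-(s * L * wt r * (1 - Real.cos θ))) * P.eval r →
      ‖aeval (pt r θ) P‖ ≤ Real.exp (-(m * L * wt r * (1 - Real.cos θ))) * P.eval r := by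
    intro s hs h1
    refine h1.trans (mul_le_mul_of_nonneg_right (Real.exp_le_exp.2 (neg_le_neg ?_)) hPr.le)
    gcongr
  rcases lt_or_ge r r₁ with h1 | h1
  · exact key _ hm1 (dec_low h hP hA3 hB3 hr (by linarith) (by linarith))
  rcases lt_or_ge r₁⁻¹ r with h2 | h2
  · exact key _ hm1 (dec_top h hP hA5 hB6 (hB4.trans h2.le))
  rcases le_or_gt |θ| θ₀ with h3 | h3
  · exact key _ (by linarith) (hnear r₁ L P hP r θ hr h1 h2 h3)
  · refine (hdec r θ h1 h2 h3.le hθ).trans (mul_le_mul_of_nonneg_right (Real.exp_le_exp.2 (neg_le_neg ?_)) hPr.le)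
    have hw4 := wt_le_quarter hr
    calc m * L * wt r * (1 - Real.cos θ) ≤ 2 * g * L * (1 / 4) * 2 := by gcongr
      _ = g * L := by ring

end Pool.Agent.Helper74.EV5
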