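import Pool.Agent.Helper74.EV5.Var

/-!
# EV4d core: strict log-concavity where the variance is large

Near the axis the Gaussian decay is a consequence of the variance bound, so decay is needed for `θ₀ ≤ |θ|` only.
-/

set_option autoImplicit false

namespace Pool.Agent.Helper74.EV5

open Polynomial EVC Pool.Agent.Helper74.EV4 Pool.Agent.Helper3.E4

variable {b c T κ r₁ : ℝ}

/-- the second absolute moment is at most linear -/
theorem W_le_L (hA : Adm b c T κ) {L : ℕ} {P : ℝ[X]} (h : H5 b c T κ r₁ L P) {r : ℝ}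
    (hr : 0 < r) : W P r ≤ 1 / b * (1 + 1 / b) * L := by
  have hb := hA.hb
  have h1 : ∀ ρ ∈ Z P, ‖p r ρ * (1 - p r ρ)‖ ≤ 1 / b * (1 + 1 / b) := by
    intro ρ hρ
    have h2 := norm_p_le hA h hr hρ
    have h3 : ‖1 - p r ρ‖ ≤ 1 + 1 / b := by
      refine (norm_sub_le _ _).trans ?_
      rw [norm_one]
      linarith
    rw [norm_mul]
    exact mul_le_mul h2 h3 (norm_nonneg _) (by positivity)
  have h2 : W P r ≤ ((Z P).map fun _ => 1 / b * (1 + 1 / b)).sum := by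
    unfold W
    exact Multiset.sum_map_le_sum_map _ _ h1
  rw [Multiset.map_const', Multiset.sum_replicate, nsmul_eq_mul] at h2
  have h3 := Pool.Agent.Helper3.E4.card_le h.toNice
  have h4 : (0 : ℝ) ≤ (Z P).card := Nat.cast_nonneg _
  have h5 : ((Z P).card : ℝ) * (1 / b * (1 + 1 / b)) ≤ L * (1 / b * (1 + 1 / b)) :=
    mul_le_mul_of_nonneg_right (by linarith) (by positivity)
  linarith

theorem W_le5 (hA : Adm b c T κ) {L : ℕ} {P : ℝ[X]} (h : H5 b c T κ r₁ L P) {r : ℝ}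
    (hr : 0 < r) (hra : r₁ ≤ r) (hrb : r ≤ r₁⁻¹) : W P r ≤ (1 + Pool.Agent.Helper3.E4.K0 b c T / κ) * V P r := by
  have h1 := W_le_add hA h hr
  have h2 := h.var r hra hrb
  have hK := Pool.Agent.Helper3.E4.K0_pos hA
  have hκ := hA.hκ
  have h3 : Pool.Agent.Helper3.E4.K0 b c T / κ * (κ * L * wt r) ≤ Pool.Agent.Helper3.E4.K0 b c T / κ * V P r :=
    mul_le_mul_of_nonneg_left h2 (by positivity)
  have h4 : Pool.Agent.Helper3.E4.K0 b c T / κ * (κ * L * wt r) = Pool.Agent.Helper3.E4.K0 b c T * (L * wt r) := by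
    field_simp
  linarith

/-- **The bulk.** -/
theorem bulk5 (hA : Adm b c T κ) : ∃ θ₀ : ℝ, 0 < θ₀ ∧ θ₀ ≤ 1 ∧ ∀ C g : ℝ, 0 < C → 0 < g → ∃ V₀ : ℝ,
    ∀ (r₁ : ℝ) (L : ℕ) (P : ℝ[X]), H5 b c T κ r₁ L P → ∀ r : ℝ, 0 < r → r₁ ≤ r → r ≤ r₁⁻¹ → V₀ ≤ V P r →
      (∀ θ : ℝ, θ₀ ≤ |θ| → |θ| ≤ Real.pi → ‖aeval (pt r θ) P‖ ≤ C * Real.exp (-(g * L)) * P.eval r) →
      ∀ k : ℕ, 1 ≤ k → mean P r = k → P.coeff (k - 1) * P.coeff (k + 1) < P.coeff k ^ 2 := by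
  have hK := Pool.Agent.Helper3.E4.K0_pos hA
  have hκ := hA.hκ
  have hb := hA.hb
  obtain ⟨θ₂, hθ₂, K, hK1, hlf⟩ := local_form (B := 1 / b) (by
    rw [le_div_iff₀ hb]
    linarith [hA.hb1])
  obtain ⟨C3, hC3⟩ : ∃ C3, C3 = K * (1 + Pool.Agent.Helper3.E4.K0 b c T / κ) := ⟨_, rfl⟩
  have hC30 : 0 < C3 := by rw [hC3]; positivity
  refine ⟨min (min θ₂ 1) (1 / (4 * C3)), lt_min (lt_min hθ₂ one_pos) (by positivity),
    (min_le_left _ _).trans (min_le_right _ _), ?_⟩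
  intro C g hC hg
  obtain ⟨θ₀, hθ₀⟩ : ∃ θ₀, θ₀ = min (min θ₂ 1) (1 / (4 * C3)) := ⟨_, rfl⟩
  rw [← hθ₀]
  have hθ0 : 0 < θ₀ := by rw [hθ₀]; exact lt_min (lt_min hθ₂ one_pos) (by positivity)
  have hθ1 : θ₀ ≤ θ₂ := by rw [hθ₀]; exact (min_le_left _ _).trans (min_le_left _ _)
  have hθ2 : 4 * C3 * θ₀ ≤ 1 := by
    have h1 : θ₀ ≤ 1 / (4 * C3) := by rw [hθ₀]; exact min_le_right _ _
    rw [le_div_iff₀ (by positivity)] at h1
    linarith
  obtain ⟨B2, hB2⟩ : ∃ B2, B2 = 1 / b * (1 + 1 / b) := ⟨_, rfl⟩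
  have hB20 : 0 < B2 := by rw [hB2]; positivity
  obtain ⟨V₀, hsad⟩ := saddle θ₀ C3 C (g / B2) hθ0 hC30 hC (by positivity) hθ2
  refine ⟨V₀, fun r₁ L P h r hr hra hrb hV hdec k hk hmean => ?_⟩
  have hPr := h.toNice.eval_pos hr
  refine hsad P h.nn k hk r (V P r) hr hV hPr ?_ ?_
  · intro x hx
    obtain ⟨w, hw1, hw2⟩ := hlf L P h.toNice r hr (fun ρ hρ => norm_p_le hA h hr hρ) x (hx.trans hθ1)
    refine ⟨w, hw1.trans ?_, ?_⟩
    · have h1 := W_le5 hA h hr hra hrb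
      have h2 : 0 ≤ |x| ^ 3 := by positivity
      calc K * W P r * |x| ^ 3 ≤ K * ((1 + Pool.Agent.Helper3.E4.K0 b c T / κ) * V P r) * |x| ^ 3 := by gcongr
        _ = C3 * V P r * |x| ^ 3 := by rw [hC3]; ring
    · rw [hw2, hmean]
      congr 2
      push_cast
      ring
  · intro x hx1 hx2
    refine (hdec x hx1 hx2).trans ?_
    refine mul_le_mul_of_nonneg_right (mul_le_mul_of_nonneg_left (Real.exp_le_exp.2 ?_) hC.le) hPr.le
    apply neg_le_neg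
    have h1 : V P r ≤ B2 * L := by
      rw [hB2]
      exact (V_le_W P r).trans (W_le_L hA h hr)
    calc g / B2 * V P r ≤ g / B2 * (B2 * L) := mul_le_mul_of_nonneg_left h1 (by positivity)
      _ = g * L := by field_simp

end Pool.Agent.Helper74.EV5
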