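import Pool.Agent.Helper74.EV4.Hyp

/-!
# EV4d, analytic half: the hypothesis

As in `EV4.Hyp`, but the variance is bounded from below on a compact interval of radii only, and there is no decay of the
polynomial near the positive axis among the hypotheses.
-/

set_option autoImplicit false

namespace Pool.Agent.Helper74.EV5

open Polynomial Pool.Agent.Helper74.EV4

/-- The input of the core. Roots: at a relative distance `b` from the positive axis, of modulus at most `T`, and
real negative if their modulus is less than `c`; an upper bound at `1`; a lower bound for the variance. -/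
structure H5 (b c T κ r₁ : ℝ) (L : ℕ) (P : ℝ[X]) : Prop extends EVC.Nice L P where
  dist : ∀ ρ ∈ EVC.Z P, ∀ r : ℝ, 0 < r → b * (r + ‖ρ‖) ≤ ‖(r : ℂ) - ρ‖
  far : ∀ ρ ∈ EVC.Z P, ‖ρ‖ ≤ T
  neg : ∀ ρ ∈ EVC.Z P, ‖ρ‖ < c → ρ.im = 0 ∧ ρ.re < 0
  up : P.eval 1 ≤ 4 ^ L
  var : ∀ r : ℝ, r₁ ≤ r → r ≤ r₁⁻¹ → κ * L * wt r ≤ EVC.V P r

end Pool.Agent.Helper74.EV5
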