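import Pool.Agent.Helper74.EV4.Mid
import Pool.Agent.Helper74.EV5.Hyp

/-!
# EV4d core: the mean at small and at large radii
-/

set_option autoImplicit false

namespace Pool.Agent.Helper74.EV5

open Polynomial EVC Pool.Agent.Helper74.EV4

theorem sum_lg_le {b c T κ r₁ : ℝ} (h : Adm b c T κ) {L : ℕ} {P : ℝ[X]} (hP : H5 b c T κ r₁ L P) :
    ((Z P).map lg).sum ≤ K0 b * L := by
  have h0 : (P.map (algebraMap ℝ ℂ)).coeff 0 ≠ 0 := by
    rw [coeff_map]
    have := hP.one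
    have h1 : P.coeff 0 ≠ 0 := by linarith
    exact Complex.ofReal_ne_zero.2 h1
  have h1 := congrArg (fun Q : ℂ[X] => ‖Q.eval 1‖) (Pool.Agent.Helper49.EV.eq_prod _ h0)
  have h2 : (P.map (algebraMap ℝ ℂ)).eval 1 = ((P.eval 1 : ℝ) : ℂ) := by
    have := eval_map_ofReal P 1
    rwa [Complex.ofReal_one] at this
  have h3 : 0 ≤ P.eval 1 := (hP.toNice.eval_pos one_pos).le
  rw [h2, Complex.norm_real, Real.norm_of_nonneg h3, eval_mul, eval_C, norm_mul, Polynomial.eval_multiset_prod,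
    Multiset.map_map] at h1
  have h4 : (1 : ℝ) ≤ ‖(P.map (algebraMap ℝ ℂ)).coeff 0‖ := by
    rw [coeff_map]
    change (1 : ℝ) ≤ ‖((P.coeff 0 : ℝ) : ℂ)‖
    rw [Complex.norm_real]
    exact hP.one.trans (le_abs_self _)
  have h5 := prod_lower' h.hb (Z P) (fun ρ hρ => Z_ne_zero hP.toNice hρ) (fun ρ hρ => by
    have := hP.dist ρ hρ 1 one_pos
    rwa [Complex.ofReal_one] at this)
  have h6 : ((P.map (algebraMap ℝ ℂ)).roots.map ((fun Q : ℂ[X] => Q.eval 1) ∘ fun z => (1 + C (-z⁻¹) * X : ℂ[X]))) =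
      ((Z P).map fun ρ => 1 + -ρ⁻¹) := by
    unfold Z
    refine Multiset.map_congr rfl fun ρ _ => ?_
    simp
  have h7 : b ^ Multiset.card (Z P) * Real.exp (((Z P).map lg).sum) ≤ 4 ^ L := by
    refine le_trans ?_ hP.up
    rw [h1, h6]
    calc _ ≤ ‖((Z P).map fun ρ => 1 + -ρ⁻¹).prod‖ := h5
      _ = 1 * _ := by rw [one_mul]
      _ ≤ _ := mul_le_mul_of_nonneg_right h4 (norm_nonneg _)
  have hb := h.hb
  have h8 := Real.log_le_log (by positivity) h7
  rw [Real.log_mul (by positivity) (Real.exp_pos _).ne', Real.log_pow, Real.log_exp, Real.log_pow] at h8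
  have h9 := card_Z_le hP.toNice
  have h10 : Real.log b ≤ 0 := Real.log_nonpos hb.le h.hb1
  have h11 : (L : ℝ) / 2 * Real.log b ≤ (Multiset.card (Z P) : ℝ) * Real.log b :=
    mul_le_mul_of_nonpos_right (by linarith) h10
  unfold K0
  linarith

/-- **Small mean at a fixed small radius.** -/
theorem mean_small {b c T κ : ℝ} (h : Adm b c T κ) {ε : ℝ} (hε : 0 < ε) : ∃ r : ℝ, 0 < r ∧ r ≤ 1 ∧ ∀ (r₁ : ℝ) (L : ℕ)
    (P : ℝ[X]), H5 b c T κ r₁ L P → mean P r ≤ ε * L := by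
  have hb := h.hb
  have hK := K0_pos hb h.hb1
  obtain ⟨q, hq⟩ : ∃ q, q = 2 * K0 b / (b * ε) := ⟨_, rfl⟩
  have hq0 : 0 < q := by rw [hq]; positivity
  obtain ⟨η, hη⟩ : ∃ η, η = Real.exp (-q) := ⟨_, rfl⟩
  have hη0 : 0 < η := by rw [hη]; exact Real.exp_pos _
  have hη1 : η ≤ 1 := by rw [hη]; exact Real.exp_le_one_iff.2 (by linarith)
  refine ⟨min 1 (b * ε * η), lt_min one_pos (by positivity), min_le_left _ _, ?_⟩
  intro r₁ L P hP
  obtain ⟨r, hr⟩ : ∃ r, r = min 1 (b * ε * η) := ⟨_, rfl⟩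
  rw [← hr]
  have hr0 : 0 < r := by rw [hr]; exact lt_min one_pos (by positivity)
  have hr1 : r ≤ b * ε * η := by rw [hr]; exact min_le_right _ _
  have h1 := mean_le_M hP.toNice hb hr0 (fun ρ hρ => hP.dist ρ hρ r hr0) (mean_eq hP.toNice hr0)
  have h2 : M P r ≤ (L : ℝ) / 2 * (r / η) + q⁻¹ * (K0 b * L) := by
    have h3 : ∀ ρ ∈ Z P, min 1 (r / ‖ρ‖) ≤ r / η + q⁻¹ * lg ρ := by
      intro ρ hρ
      have hn : 0 < ‖ρ‖ := norm_pos_iff.2 (Z_ne_zero hP.toNice hρ)
      by_cases h4 : η ≤ ‖ρ‖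
      · have h5 : r / ‖ρ‖ ≤ r / η := div_le_div_of_nonneg_left hr0.le hη0 h4
        have h6 : 0 ≤ q⁻¹ * lg ρ := mul_nonneg (by positivity) (lg_nonneg ρ)
        exact (min_le_right _ _).trans (by linarith)
      · push Not at h4
        have h5 : q ≤ lg ρ := by
          unfold lg
          rw [Real.le_log_iff_exp_le (lt_of_lt_of_le one_pos (le_max_left _ _))]
          refine le_trans ?_ (le_max_right _ _)
          have h6 : Real.exp q = η⁻¹ := by rw [hη, Real.exp_neg, inv_inv]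
          rw [h6]
          exact inv_anti₀ hn h4.le
        have h6 : 1 ≤ q⁻¹ * lg ρ := by
          rw [inv_mul_eq_div, le_div_iff₀ hq0]
          linarith
        have h7 : 0 ≤ r / η := by positivity
        exact (min_le_left _ _).trans (by linarith)
    have h4 := Multiset.sum_map_le_sum_map _ _ h3
    rw [Multiset.sum_map_add, Multiset.map_const', Multiset.sum_replicate, nsmul_eq_mul, Multiset.sum_map_mul_left] at h4
    have h5 := sum_lg_le h hP
    have h6 := card_Z_le hP.toNice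
    have h7 : (Multiset.card (Z P) : ℝ) * (r / η) ≤ (L : ℝ) / 2 * (r / η) :=
      mul_le_mul_of_nonneg_right (by linarith) (by positivity)
    have h8 : q⁻¹ * ((Z P).map lg).sum ≤ q⁻¹ * (K0 b * L) := mul_le_mul_of_nonneg_left h5 (by positivity)
    unfold M
    have h9 : ((Z P).map fun i => lg i).sum = ((Z P).map lg).sum := rfl
    rw [h9] at h4
    linarith
  have h3 : r / η ≤ b * ε := by rw [div_le_iff₀ hη0]; exact hr1
  have h4 : q⁻¹ * (K0 b * L) = b * ε / 2 * L := by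
    rw [hq]
    field_simp
  have hL : (0 : ℝ) ≤ L := Nat.cast_nonneg L
  have h5 : M P r ≤ b * (ε * L) := by
    have h6 : (L : ℝ) / 2 * (r / η) ≤ L / 2 * (b * ε) := mul_le_mul_of_nonneg_left h3 (by positivity)
    rw [h4] at h2
    linarith
  refine h1.trans ?_
  rw [inv_mul_le_iff₀ hb]
  exact h5

/-- **Large mean at a fixed large radius.** -/
theorem mean_large {b c T κ : ℝ} (h : Adm b c T κ) {ε : ℝ} (hε : 0 < ε) : ∃ r : ℝ, 1 ≤ r ∧ ∀ (r₁ : ℝ) (L : ℕ) (P : ℝ[X]),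
    H5 b c T κ r₁ L P → P.natDegree - ε * L ≤ mean P r := by
  have hb := h.hb
  have hT := h.hT
  refine ⟨max 1 (T / (b * ε)), le_max_left _ _, ?_⟩
  intro r₁ L P hP
  obtain ⟨r, hr⟩ : ∃ r, r = max 1 (T / (b * ε)) := ⟨_, rfl⟩
  rw [← hr]
  have hr1 : 1 ≤ r := by rw [hr]; exact le_max_left _ _
  have hr0 : 0 < r := by linarith
  have hr2 : T / (b * ε) ≤ r := by rw [hr]; exact le_max_right _ _
  have h1 := congrArg Complex.re (mean_eq hP.toNice hr0)
  rw [Complex.ofReal_re, re_sum_map] at h1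
  have h2 : ∀ ρ ∈ Z P, 1 - ε ≤ (p r ρ).re := by
    intro ρ hρ
    have hd := hP.dist ρ hρ r hr0
    have hn := norm_nonneg ρ
    have hpos : 0 < ‖(r : ℂ) - ρ‖ := lt_of_lt_of_le (by positivity) hd
    have hne : (r : ℂ) - ρ ≠ 0 := norm_pos_iff.1 hpos
    have e1 : p r ρ = 1 - (-ρ / ((r : ℂ) - ρ)) := by
      unfold p
      rw [eq_sub_iff_add_eq, ← add_div, ← sub_eq_add_neg, div_self hne]
    have h3 : ‖-ρ / ((r : ℂ) - ρ)‖ ≤ ε := by
      rw [norm_div, norm_neg, div_le_iff₀ hpos]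
      have h4 : ε * (b * (r + ‖ρ‖)) ≤ ε * ‖(r : ℂ) - ρ‖ := mul_le_mul_of_nonneg_left hd hε.le
      refine le_trans ?_ h4
      have h5 : T ≤ r * (b * ε) := by rwa [div_le_iff₀ (by positivity)] at hr2
      have h6 : 0 ≤ ε * (b * ‖ρ‖) := by positivity
      have h7 := hP.far ρ hρ
      nlinarith
    rw [e1, Complex.sub_re, Complex.one_re]
    have h5 := (le_abs_self _).trans ((Complex.abs_re_le_norm _).trans h3)
    linarith
  have h3 := Multiset.sum_map_le_sum_map _ _ h2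
  rw [Multiset.map_const', Multiset.sum_replicate, nsmul_eq_mul, h1, card_Z] at h3
  have h4 : 2 * (P.natDegree : ℝ) ≤ L := by exact_mod_cast hP.deg
  have h5 : (0 : ℝ) ≤ P.natDegree := Nat.cast_nonneg _
  nlinarith

end Pool.Agent.Helper74.EV5
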