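import Pool.Agent.Helper74.EV5.Low
import Pool.Agent.Helper74.EV5.Mid
import Pool.Agent.Helper74.EV5.TopEnd
import Pool.Agent.Helper74.EV5.Bulk

/-!
# EV4d: the core

Log-concavity of all coefficients for large `L`, from the positions of the roots, the variance on `[r₁, 1 / r₁]` and
decay away from the positive axis on the same radii.
-/

set_option autoImplicit false

namespace Pool.Agent.Helper74.EV5

open Polynomial EVC Pool.Agent.Helper74.EV4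

/-- **The core**, with a constant factor in the decay. -/
theorem core5C (b c T κ : ℝ) (h : Adm b c T κ) : ∃ r₁ θ₀ : ℝ, 0 < r₁ ∧ r₁ ≤ 1 ∧ 0 < θ₀ ∧ θ₀ ≤ 1 ∧
    ∀ C g : ℝ, 0 < C → 0 < g → ∃ L₀ : ℕ, ∀ L : ℕ, L₀ ≤ L → ∀ P : ℝ[X], H5 b c T κ r₁ L P →
      (∀ r θ : ℝ, r₁ ≤ r → r ≤ r₁⁻¹ → θ₀ ≤ |θ| → |θ| ≤ Real.pi →
        ‖aeval (pt r θ) P‖ ≤ C * Real.exp (-(g * L)) * P.eval r) →
      ∀ k : ℕ, 1 ≤ k → P.coeff (k - 1) * P.coeff (k + 1) ≤ P.coeff k ^ 2 := by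
  have hκ := h.hκ
  have hT : 0 < T := lt_of_lt_of_le one_pos h.hT
  obtain ⟨θ₀, hθ0, hθ1, hbulk⟩ := bulk5 h
  have hδ := del_pos h
  have hτ := dtop_pos h
  have hrr := r1_pos h
  have hrr2 := r1_le h
  obtain ⟨ra, hra, hra1, hsmall⟩ := mean_small h (half_pos hδ)
  obtain ⟨Rb, hRb1, hlarge⟩ := mean_large h hτ
  have hRb : 0 < Rb := by linarith
  obtain ⟨r₁, hr₁⟩ : ∃ r₁, r₁ = min (min ra Rb⁻¹) (min (r1 c κ) (min (40 * T ^ 2 / κ)⁻¹ 1)) := ⟨_, rfl⟩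
  have hr0 : 0 < r₁ := by
    rw [hr₁]
    exact lt_min (lt_min hra (by positivity)) (lt_min hrr (lt_min (by positivity) one_pos))
  have hA1 : r₁ ≤ ra := by rw [hr₁]; exact (min_le_left _ _).trans (min_le_left _ _)
  have hA2 : r₁ ≤ Rb⁻¹ := by rw [hr₁]; exact (min_le_left _ _).trans (min_le_right _ _)
  have hA3 : r₁ ≤ r1 c κ := by rw [hr₁]; exact (min_le_right _ _).trans (min_le_left _ _)
  have hA4 : r₁ ≤ (40 * T ^ 2 / κ)⁻¹ := by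
    rw [hr₁]
    exact (min_le_right _ _).trans ((min_le_right _ _).trans (min_le_left _ _))
  have hA5 : r₁ ≤ 1 := by
    rw [hr₁]
    exact (min_le_right _ _).trans ((min_le_right _ _).trans (min_le_right _ _))
  have hB2 : Rb ≤ r₁⁻¹ := (le_inv_comm₀ hr0 hRb).1 hA2
  have hB4 : 40 * T ^ 2 / κ ≤ r₁⁻¹ := (le_inv_comm₀ hr0 (by positivity)).1 hA4
  have hB5 : 1 ≤ r₁⁻¹ := (one_le_inv₀ hr0).2 hA5
  have hB3 : r1 c κ ≤ r₁⁻¹ := by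
    have := h.hc1
    linarith
  refine ⟨r₁, θ₀, hr0, hA5, hθ0, hθ1, fun C g hC hg => ?_⟩
  obtain ⟨V0, hbulk⟩ := hbulk C g hC hg
  -- the least weight on the interval
  obtain ⟨w, hw⟩ : ∃ w, w = ra / (1 + Rb) ^ 2 := ⟨_, rfl⟩
  have hw0 : 0 < w := by rw [hw]; positivity
  obtain ⟨L1, hL1⟩ := exists_nat_ge (V0 / (κ * w))
  obtain ⟨L2, hL2⟩ := exists_nat_ge (2 / del c κ)
  refine ⟨max (max L1 L2) 1, fun L hL P hP hdec k hk => ?_⟩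
  have hLa : L1 ≤ L := (le_max_left _ _).trans ((le_max_left _ _).trans hL)
  have hLb : L2 ≤ L := (le_max_right _ _).trans ((le_max_left _ _).trans hL)
  have hLc : 1 ≤ L := (le_max_right _ _).trans hL
  have hLaR : (L1 : ℝ) ≤ L := by exact_mod_cast hLa
  have hLbR : (L2 : ℝ) ≤ L := by exact_mod_cast hLb
  by_cases hk1 : (k : ℝ) + 1 ≤ del c κ * L
  · exact low4 h hP hA3 hB3 k hk hk1
  by_cases hk2 : (P.natDegree : ℝ) ≤ k + dtop T κ * L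
  · exact top4 h hLc hP hA5 hB4 k hk2
  push Not at hk1 hk2
  have h1 := hsmall r₁ L P hP
  have h2 := hlarge r₁ L P hP
  have h3 : 2 ≤ del c κ * L := by
    have h4 : 2 / del c κ ≤ L := hL2.trans hLbR
    rw [div_le_iff₀ hδ] at h4
    linarith
  have h4 : mean P ra ≤ k := by linarith
  have h5 : (k : ℝ) ≤ mean P Rb := by linarith
  have hab : ra ≤ Rb := hra1.trans hRb1
  obtain ⟨r, hr, hrk⟩ := intermediate_value_Icc hab (mean_cont hP.toNice ra Rb hra) ⟨h4, h5⟩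
  have hr0' : 0 < r := lt_of_lt_of_le hra hr.1
  have hrA : r₁ ≤ r := hA1.trans hr.1
  have hrB : r ≤ r₁⁻¹ := hr.2.trans hB2
  refine (hbulk r₁ L P hP r hr0' hrA hrB ?_ (fun θ h6 h7 => hdec r θ hrA hrB h6 h7) k hk hrk).le
  refine le_trans ?_ (hP.var r hrA hrB)
  have h6 : w ≤ wt r := by
    rw [hw]
    unfold wt
    have h7 : (1 + r) ^ 2 ≤ (1 + Rb) ^ 2 := pow_le_pow_left₀ (by linarith) (by linarith [hr.2]) 2
    exact div_le_div₀ hr0'.le hr.1 (by positivity) h7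
  have h7 : V0 ≤ κ * w * L := by
    have h8 : V0 / (κ * w) ≤ L := hL1.trans hLaR
    rw [div_le_iff₀ (by positivity)] at h8
    linarith
  refine h7.trans ?_
  have h9 : κ * L * w ≤ κ * L * wt r := mul_le_mul_of_nonneg_left h6 (by positivity)
  linarith

/-- **The core.** -/
theorem core5 (b c T κ : ℝ) (h : Adm b c T κ) : ∃ r₁ θ₀ : ℝ, 0 < r₁ ∧ r₁ ≤ 1 ∧ 0 < θ₀ ∧ θ₀ ≤ 1 ∧
    ∀ g : ℝ, 0 < g → ∃ L₀ : ℕ, ∀ L : ℕ, L₀ ≤ L → ∀ P : ℝ[X], H5 b c T κ r₁ L P →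
      (∀ r θ : ℝ, r₁ ≤ r → r ≤ r₁⁻¹ → θ₀ ≤ |θ| → |θ| ≤ Real.pi →
        ‖aeval (pt r θ) P‖ ≤ Real.exp (-(g * L)) * P.eval r) →
      ∀ k : ℕ, 1 ≤ k → P.coeff (k - 1) * P.coeff (k + 1) ≤ P.coeff k ^ 2 := by
  obtain ⟨r₁, θ₀, h1, h2, h3, h4, h5⟩ := core5C b c T κ h
  refine ⟨r₁, θ₀, h1, h2, h3, h4, fun g hg => ?_⟩
  obtain ⟨L₀, h6⟩ := h5 1 g one_pos hg
  refine ⟨L₀, fun L hL P hP hdec => h6 L hL P hP fun r θ h7 h8 h9 h10 => ?_⟩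
  rw [one_mul]
  exact hdec r θ h7 h8 h9 h10

end Pool.Agent.Helper74.EV5
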