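import Pool.Agent.Helper74.EV5.Bridge
import Pool.Agent.Helper85.E5.Hyp

/-!
# EV4d: from the hypothesis `H6` and decay away from the axis to the hypothesis of E5
-/

set_option autoImplicit false

namespace Pool.Agent.Helper74.EV5

open Polynomial EVC Pool.Agent.Helper74.EV4

/-- **From `H6` to the hypothesis of E5.** -/
theorem hyp_of (b c T κ : ℝ) (h : Adm b c T κ) : ∃ r₁ θ₀ : ℝ, 0 < r₁ ∧ r₁ ≤ 1 ∧ 0 < θ₀ ∧ θ₀ ≤ 1 ∧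
    ∀ g : ℝ, 0 < g → ∃ κ' : ℝ, Pool.Agent.Helper85.E5.Adm b c T κ' ∧ ∀ (L : ℕ) (P : ℝ[X]), H6 b c T κ r₁ L P →
      (∀ r θ : ℝ, r₁ ≤ r → r ≤ r₁⁻¹ → θ₀ ≤ |θ| → |θ| ≤ Real.pi →
        ‖aeval (pt r θ) P‖ ≤ Real.exp (-(g * L)) * P.eval r) → Pool.Agent.Helper85.E5.Hyp b c T κ' L P := by
  have hκ := h.hκ
  have hκ1 := h.hκ1
  obtain ⟨r₁, θ₀, h1, h2, h3, h4, hdec⟩ := dec_all b c T κ h
  refine ⟨r₁, θ₀, h1, h2, h3, h4, fun g hg => ⟨min (κ / 16) (2 * g), ?_, fun L P hP ha => ?_⟩⟩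
  · exact ⟨h.hb, h.hb1, h.hc, h.hc1, h.hT, lt_min (by positivity) (by positivity),
      (min_le_left _ _).trans (by linarith)⟩
  · exact ⟨hP.toNice, hP.dist, hP.far, hP.neg, hdec g hg L P hP ha⟩

/-- **The core of EV4d, from the core of E5.** -/
theorem core6_of
    (E5 : ∀ b c T κ : ℝ, Pool.Agent.Helper85.E5.Adm b c T κ → ∃ L₀ : ℕ, ∀ L : ℕ, L₀ ≤ L → ∀ P : ℝ[X],
      Pool.Agent.Helper85.E5.Hyp b c T κ L P → ∀ k : ℕ, 1 ≤ k → P.coeff (k - 1) * P.coeff (k + 1) ≤ P.coeff k ^ 2)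
    (b c T κ : ℝ) (h : Adm b c T κ) : ∃ r₁ θ₀ : ℝ, 0 < r₁ ∧ r₁ ≤ 1 ∧ 0 < θ₀ ∧ θ₀ ≤ 1 ∧
    ∀ g : ℝ, 0 < g → ∃ L₀ : ℕ, ∀ L : ℕ, L₀ ≤ L → ∀ P : ℝ[X], H6 b c T κ r₁ L P →
      (∀ r θ : ℝ, r₁ ≤ r → r ≤ r₁⁻¹ → θ₀ ≤ |θ| → |θ| ≤ Real.pi →
        ‖aeval (pt r θ) P‖ ≤ Real.exp (-(g * L)) * P.eval r) →
      ∀ k : ℕ, 1 ≤ k → P.coeff (k - 1) * P.coeff (k + 1) ≤ P.coeff k ^ 2 := by
  obtain ⟨r₁, θ₀, h1, h2, h3, h4, h5⟩ := hyp_of b c T κ h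
  refine ⟨r₁, θ₀, h1, h2, h3, h4, fun g hg => ?_⟩
  obtain ⟨κ', hA, h6⟩ := h5 g hg
  obtain ⟨L₀, h7⟩ := E5 b c T κ' hA
  exact ⟨L₀, fun L hL P hP ha => h7 L hL P (h6 L P hP ha)⟩

end Pool.Agent.Helper74.EV5
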