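import Pool.Agent.Helper3.E4.Var
import Pool.Agent.Helper74.EV4.TopEnd
import Pool.Agent.Helper74.EV5.Hyp

/-!
# EV4d core: the hypothesis without an upper bound of the polynomial at `1`
-/

set_option autoImplicit false

namespace Pool.Agent.Helper74.EV5

open Polynomial EVC Pool.Agent.Helper74.EV4

/-- As `H5`, without the upper bound at `1`. -/
structure H6 (b c T κ r₁ : ℝ) (L : ℕ) (P : ℝ[X]) : Prop extends EVC.Nice L P where
  dist : ∀ ρ ∈ EVC.Z P, ∀ r : ℝ, 0 < r → b * (r + ‖ρ‖) ≤ ‖(r : ℂ) - ρ‖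
  far : ∀ ρ ∈ EVC.Z P, ‖ρ‖ ≤ T
  neg : ∀ ρ ∈ EVC.Z P, ‖ρ‖ < c → ρ.im = 0 ∧ ρ.re < 0
  var : ∀ r : ℝ, r₁ ≤ r → r ≤ r₁⁻¹ → κ * L * wt r ≤ EVC.V P r

open Classical in
/-- **The first power sum is linear.** -/
theorem lam_ge6 {b c T κ r₁ : ℝ} (h : Adm b c T κ) {L : ℕ} {P : ℝ[X]} (hP : H6 b c T κ r₁ L P)
    (hr1 : r₁ ≤ r1 c κ) (hr1i : r1 c κ ≤ r₁⁻¹) :
    κ / 8 * L ≤ ((fr c κ P).map fun ρ => (-ρ⁻¹).re).sum := by
  have hr := r1_pos h
  have hr2 := r1_le h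
  have hc := h.hc
  have hκ := h.hκ
  have hc0 := c0_pos h
  obtain ⟨r, hrdef⟩ : ∃ r, r = r1 c κ := ⟨_, rfl⟩
  rw [← hrdef] at hr hr2
  have hV1 := hP.var r (by rw [hrdef]; exact hr1) (by rw [hrdef]; exact hr1i)
  have e1 : V P r = ((Z P).map fun ρ => (p r ρ * (1 - p r ρ)).re).sum := by
    unfold V
    exact re_sum_map _ _
  obtain ⟨A, hA⟩ : ∃ A, A = c0 c κ / r + 10 * r ^ 2 / c ^ 2 := ⟨_, rfl⟩
  have hA0 : 0 ≤ A := by rw [hA]; positivity
  have hbd : ∀ ρ ∈ Z P, (p r ρ * (1 - p r ρ)).re ≤ A + r * (if c0 c κ ≤ ‖ρ‖ then (-ρ⁻¹).re else 0) := by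
    intro ρ hρ
    by_cases h1 : ‖ρ‖ < c
    · obtain ⟨him, hre⟩ := hP.neg ρ hρ h1
      obtain ⟨h2, h3, h4⟩ := real_root hr him hre
      rw [h2, Complex.ofReal_re]
      by_cases h5 : c0 c κ ≤ ‖ρ‖
      · rw [if_pos h5]
        have h6 : (-ρ⁻¹).re = ‖ρ‖⁻¹ := by
          have h7 : -ρ⁻¹ = ((‖ρ‖⁻¹ : ℝ) : ℂ) := by
            conv_lhs => rw [h3]
            push_cast
            rw [inv_neg, neg_neg]
          rw [h7, Complex.ofReal_re]
        rw [h6]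
        have h8 : r * ‖ρ‖ / (r + ‖ρ‖) ^ 2 ≤ r * ‖ρ‖⁻¹ := by
          rw [div_le_iff₀ (by positivity)]
          have h9 : ‖ρ‖ ^ 2 ≤ (r + ‖ρ‖) ^ 2 := pow_le_pow_left₀ h4.le (by linarith) 2
          calc r * ‖ρ‖ = r * ‖ρ‖⁻¹ * ‖ρ‖ ^ 2 := by field_simp
            _ ≤ _ := by gcongr
        linarith
      · rw [if_neg h5, mul_zero, add_zero]
        push Not at h5
        have h8 : r * ‖ρ‖ / (r + ‖ρ‖) ^ 2 ≤ c0 c κ / r := by
          rw [div_le_div_iff₀ (by positivity) hr]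
          have h9 : r ^ 2 ≤ (r + ‖ρ‖) ^ 2 := pow_le_pow_left₀ hr.le (by linarith) 2
          calc r * ‖ρ‖ * r = ‖ρ‖ * r ^ 2 := by ring
            _ ≤ c0 c κ * (r + ‖ρ‖) ^ 2 := by gcongr
        have : 0 ≤ 10 * r ^ 2 / c ^ 2 := by positivity
        rw [hA]
        linarith
    · push Not at h1
      rw [if_pos ((c0_le h).trans h1)]
      have h2 := far_root (r := r) hr (ρ := ρ) (by linarith)
      have h3 := (le_abs_self _).trans ((Complex.abs_re_le_norm _).trans h2)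
      rw [Complex.sub_re, Complex.re_ofReal_mul] at h3
      have h4 : 10 * r ^ 2 / ‖ρ‖ ^ 2 ≤ 10 * r ^ 2 / c ^ 2 := by gcongr
      have h5 : 0 ≤ c0 c κ / r := by positivity
      rw [hA]
      linarith
  have h1 := Multiset.sum_map_le_sum_map _ _ hbd
  rw [Multiset.sum_map_add, Multiset.map_const', Multiset.sum_replicate, nsmul_eq_mul,
    Multiset.sum_map_mul_left, sum_ite_filter, ← e1] at h1
  have hcard := card_Z_le hP.toNice
  have hcardA : ((Z P).card : ℝ) * A ≤ L / 2 * A := mul_le_mul_of_nonneg_right (by linarith) hA0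
  have hw : r / 4 ≤ wt r := by
    unfold wt
    rw [div_le_div_iff₀ (by norm_num) (by positivity)]
    have : (1 + r) ^ 2 ≤ 4 := by
      have h3 : r ≤ 1 := by linarith [h.hc1]
      nlinarith
    nlinarith
  have hLw : κ * L * (r / 4) ≤ κ * L * wt r := mul_le_mul_of_nonneg_left hw (by positivity)
  have hAeq : (L : ℝ) / 2 * A = κ * L * r / 8 := by
    rw [hA]
    have e2 : c0 c κ = κ * r ^ 2 / 8 := by rw [hrdef]; rfl
    have e3 : r = κ * c ^ 2 / 80 := by rw [hrdef]; rfl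
    have e4 : 10 * r ^ 2 / c ^ 2 = κ * r / 8 := by
      rw [div_eq_iff (by positivity)]
      nlinarith [e3]
    have e5 : c0 c κ / r = κ * r / 8 := by
      rw [e2, div_eq_iff hr.ne']
      ring
    rw [e4, e5]
    ring
  have hfin : κ * L * r / 8 ≤ r * ((fr c κ P).map fun ρ => (-ρ⁻¹).re).sum := by
    unfold fr
    linarith
  exact le_of_mul_le_mul_left (by linarith : r * (κ / 8 * L) ≤ _) hr

/-- **The second coefficient from the top is linear.** -/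
theorem sum_neg_ge6 {b c T κ r₁ : ℝ} (h : Adm b c T κ) {L : ℕ} {P : ℝ[X]} (hP : H6 b c T κ r₁ L P)
    (hr1 : r₁ ≤ 1) (hr1i : 40 * T ^ 2 / κ ≤ r₁⁻¹) : κ / 8 * L ≤ ((Z P).map fun ρ => (-ρ).re).sum := by
  have hT := h.hT
  have hκ := h.hκ
  obtain ⟨r, hr⟩ : ∃ r, r = 40 * T ^ 2 / κ := ⟨_, rfl⟩
  have hr40 : 40 * T ^ 2 ≤ r := by
    rw [hr, le_div_iff₀ hκ]
    have := h.hκ1
    nlinarith [sq_nonneg T]
  have hT2 : T ≤ T ^ 2 := by nlinarith
  have hr0 : 0 < r := by nlinarith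
  have hr1' : 1 ≤ r := by nlinarith
  have hV1 := hP.var r (hr1.trans hr1') (by rw [hr]; exact hr1i)
  have e1 : V P r = ((Z P).map fun ρ => (p r ρ * (1 - p r ρ)).re).sum := by
    unfold V
    exact re_sum_map _ _
  have h1 : ∀ ρ ∈ Z P, r * (p r ρ * (1 - p r ρ)).re ≤ (-ρ).re + 10 * T ^ 2 / r := by
    intro ρ hρ
    have h2 := top_root hT (r := r) (by nlinarith) (hP.far ρ hρ)
    have h3 := (le_abs_self _).trans ((Complex.abs_re_le_norm _).trans h2)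
    rw [Complex.sub_re, Complex.re_ofReal_mul] at h3
    linarith
  have h2 := Multiset.sum_map_le_sum_map _ _ h1
  rw [Multiset.sum_map_mul_left, Multiset.sum_map_add, Multiset.map_const', Multiset.sum_replicate, nsmul_eq_mul,
    ← e1] at h2
  have h3 := card_Z_le hP.toNice
  have h4 : (Multiset.card (Z P) : ℝ) * (10 * T ^ 2 / r) ≤ (L : ℝ) / 2 * (10 * T ^ 2 / r) :=
    mul_le_mul_of_nonneg_right (by linarith) (by positivity)
  have h5 : 10 * T ^ 2 / r = κ / 4 := by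
    rw [hr]
    field_simp
    norm_num
  have h6 : 1 / 4 ≤ r * wt r := by
    unfold wt
    rw [← mul_div_assoc, div_le_div_iff₀ (by norm_num) (by positivity)]
    nlinarith
  have h7 : κ * L * (1 / 4) ≤ κ * L * (r * wt r) := mul_le_mul_of_nonneg_left h6 (by positivity)
  have h8 : r * (κ * L * wt r) ≤ r * V P r := mul_le_mul_of_nonneg_left hV1 hr0.le
  rw [h5] at h4 h2
  have h9 : κ * L * (r * wt r) = r * (κ * L * wt r) := by ring
  linarith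

section

open Pool.Agent.Helper3.E4 (wt_pos q_eq norm_q q_near card_le V_re)

variable {b c T κ r₁ : ℝ}

theorem dist_pos6 (hA : Adm b c T κ) {L : ℕ} {P : ℝ[X]} (h : H6 b c T κ r₁ L P) {r : ℝ} (hr : 0 < r)
    {ρ : ℂ} (hρ : ρ ∈ Z P) : 0 < ‖(r : ℂ) - ρ‖ := by
  have h1 := h.dist ρ hρ r hr
  have h2 := hA.hb
  have h3 := norm_nonneg ρ
  exact lt_of_lt_of_le (by positivity) h1

theorem norm_p_le6 (hA : Adm b c T κ) {L : ℕ} {P : ℝ[X]} (h : H6 b c T κ r₁ L P) {r : ℝ} (hr : 0 < r)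
    {ρ : ℂ} (hρ : ρ ∈ Z P) : ‖p r ρ‖ ≤ 1 / b := by
  have h1 := h.dist ρ hρ r hr
  have hb := hA.hb
  have h2 : b * r ≤ ‖(r : ℂ) - ρ‖ := by
    refine le_trans ?_ h1
    have := norm_nonneg ρ
    nlinarith
  have h3 := dist_pos6 hA h hr hρ
  unfold p
  rw [norm_div, Complex.norm_real, Real.norm_of_nonneg hr.le, div_le_div_iff₀ h3 hb]
  linarith

/-- far roots -/
theorem norm_q_far6 (hA : Adm b c T κ) {L : ℕ} {P : ℝ[X]} (h : H6 b c T κ r₁ L P) {r : ℝ}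
    (hr : 0 < r) {ρ : ℂ} (hρ : ρ ∈ Z P) (hc : c ≤ ‖ρ‖) :
    ‖p r ρ * (1 - p r ρ)‖ ≤ Pool.Agent.Helper3.E4.K0 b c T * wt r := by
  have h3 := dist_pos6 hA h hr hρ
  have hb := hA.hb
  have hc0 := hA.hc
  have hc1 := hA.hc1
  have h0 : (r : ℂ) - ρ ≠ 0 := norm_pos_iff.1 h3
  have h1 := h.dist ρ hρ r hr
  have hT := h.far ρ hρ
  obtain ⟨x, hx⟩ : ∃ x, x = ‖ρ‖ := ⟨_, rfl⟩
  rw [norm_q hr h0, ← hx]
  rw [← hx] at h1 hT hc
  have hx0 : 0 < x := lt_of_lt_of_le hc0 hc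
  have h4 : (b * (r + x)) ^ 2 ≤ ‖(r : ℂ) - ρ‖ ^ 2 := pow_le_pow_left₀ (by positivity) h1 2
  have h5 : r * x / ‖(r : ℂ) - ρ‖ ^ 2 ≤ r * x / (b * (r + x)) ^ 2 :=
    div_le_div_of_nonneg_left (by positivity) (by positivity) h4
  refine h5.trans ?_
  unfold Pool.Agent.Helper3.E4.K0 wt
  rw [div_mul_div_comm, div_le_div_iff₀ (by positivity) (by positivity)]
  have h6 : c * (1 + r) ≤ r + x := by nlinarith
  have h7 : (c * (1 + r)) ^ 2 ≤ (r + x) ^ 2 := pow_le_pow_left₀ (by positivity) h6 2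
  have h8 : x * (c * (1 + r)) ^ 2 ≤ T * (r + x) ^ 2 := by
    have h9 : 0 ≤ (r + x) ^ 2 := sq_nonneg _
    calc x * (c * (1 + r)) ^ 2 ≤ x * (r + x) ^ 2 := mul_le_mul_of_nonneg_left h7 hx0.le
      _ ≤ T * (r + x) ^ 2 := mul_le_mul_of_nonneg_right hT h9
  have h9 : 0 ≤ r * b ^ 2 := by positivity
  calc r * x * (b ^ 2 * c ^ 2 * (1 + r) ^ 2) = r * b ^ 2 * (x * (c * (1 + r)) ^ 2) := by ring
    _ ≤ r * b ^ 2 * (T * (r + x) ^ 2) := mul_le_mul_of_nonneg_left h8 h9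
    _ = T * r * (b * (r + x)) ^ 2 := by ring

theorem q_bound6 (hA : Adm b c T κ) {L : ℕ} {P : ℝ[X]} (h : H6 b c T κ r₁ L P) {r : ℝ}
    (hr : 0 < r) {ρ : ℂ} (hρ : ρ ∈ Z P) :
    ‖p r ρ * (1 - p r ρ)‖ ≤ (p r ρ * (1 - p r ρ)).re + 2 * (Pool.Agent.Helper3.E4.K0 b c T * wt r) := by
  have hK := Pool.Agent.Helper3.E4.K0_pos hA
  have hw := wt_pos hr
  rcases lt_or_ge ‖ρ‖ c with h1 | h1
  · obtain ⟨h2, h3⟩ := h.neg ρ hρ h1
    obtain ⟨h4, -⟩ := q_near hr h2 h3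
    have h5 : (p r ρ * (1 - p r ρ)).re = ‖p r ρ * (1 - p r ρ)‖ := by
      conv_lhs => rw [h4]
      exact Complex.ofReal_re _
    rw [h5]
    have : 0 ≤ Pool.Agent.Helper3.E4.K0 b c T * wt r := by positivity
    linarith
  · have h2 := norm_q_far6 hA h hr hρ h1
    have h3 : -‖p r ρ * (1 - p r ρ)‖ ≤ (p r ρ * (1 - p r ρ)).re :=
      (abs_le.1 (Complex.abs_re_le_norm _)).1
    linarith

theorem W_le_add6 (hA : Adm b c T κ) {L : ℕ} {P : ℝ[X]} (h : H6 b c T κ r₁ L P) {r : ℝ}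
    (hr : 0 < r) : W P r ≤ V P r + Pool.Agent.Helper3.E4.K0 b c T * (L * wt r) := by
  have hK := Pool.Agent.Helper3.E4.K0_pos hA
  have hw := wt_pos hr
  have h1 : W P r ≤ ((Z P).map fun ρ => (p r ρ * (1 - p r ρ)).re + 2 * (Pool.Agent.Helper3.E4.K0 b c T * wt r)).sum := by
    unfold W
    exact Multiset.sum_map_le_sum_map _ _ fun ρ hρ => q_bound6 hA h hr hρ
  rw [Multiset.sum_map_add, ← V_re, Multiset.map_const', Multiset.sum_replicate, nsmul_eq_mul]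
    at h1
  have h2 := card_le h.toNice
  have h3 : 2 * ((Z P).card : ℝ) * (Pool.Agent.Helper3.E4.K0 b c T * wt r) ≤ L * (Pool.Agent.Helper3.E4.K0 b c T * wt r) :=
    mul_le_mul_of_nonneg_right h2 (by positivity)
  linarith

end

end Pool.Agent.Helper74.EV5
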