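import Pool.Agent.Helper74.EV4.Low3
import Pool.Agent.Helper74.EV5.Hyp

/-!
# EV4d core, low end
-/

set_option autoImplicit false

namespace Pool.Agent.Helper74.EV5

open Polynomial EVC Pool.Agent.Helper49.ZB Pool.Agent.Helper74.EV2 Pool.Agent.Helper74.EV4

open Classical in
/-- **The first power sum is linear.** -/
theorem lam_ge {b c T κ r₁ : ℝ} (h : Adm b c T κ) {L : ℕ} {P : ℝ[X]} (hP : H5 b c T κ r₁ L P)
    (hr1 : r₁ ≤ r1 c κ) (hr1i : r1 c κ ≤ r₁⁻¹) :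
    κ / 8 * L ≤ ((fr c κ P).map fun ρ => (-ρ⁻¹).re).sum := by
  have hr := r1_pos h
  have hr2 := r1_le h
  have hc := h.hc
  have hκ := h.hκ
  have hc0 := c0_pos h
  obtain ⟨r, hrdef⟩ : ∃ r, r = r1 c κ := ⟨_, rfl⟩
  rw [← hrdef] at hr hr2
  have hV1 := hP.var r (by rw [hrdef]; exact hr1) (by rw [hrdef]; exact hr1i)
  have e1 : V P r = ((Z P).map fun ρ => (p r ρ * (1 - p r ρ)).re).sum := by
    unfold V
    exact re_sum_map _ _
  obtain ⟨A, hA⟩ : ∃ A, A = c0 c κ / r + 10 * r ^ 2 / c ^ 2 := ⟨_, rfl⟩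
  have hA0 : 0 ≤ A := by rw [hA]; positivity
  have hbd : ∀ ρ ∈ Z P, (p r ρ * (1 - p r ρ)).re ≤ A + r * (if c0 c κ ≤ ‖ρ‖ then (-ρ⁻¹).re else 0) := by
    intro ρ hρ
    by_cases h1 : ‖ρ‖ < c
    · obtain ⟨him, hre⟩ := hP.neg ρ hρ h1
      obtain ⟨h2, h3, h4⟩ := real_root hr him hre
      rw [h2, Complex.ofReal_re]
      by_cases h5 : c0 c κ ≤ ‖ρ‖
      · rw [if_pos h5]
        have h6 : (-ρ⁻¹).re = ‖ρ‖⁻¹ := by
          have h7 : -ρ⁻¹ = ((‖ρ‖⁻¹ : ℝ) : ℂ) := by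
            conv_lhs => rw [h3]
            push_cast
            rw [inv_neg, neg_neg]
          rw [h7, Complex.ofReal_re]
        rw [h6]
        have h8 : r * ‖ρ‖ / (r + ‖ρ‖) ^ 2 ≤ r * ‖ρ‖⁻¹ := by
          rw [div_le_iff₀ (by positivity)]
          have h9 : ‖ρ‖ ^ 2 ≤ (r + ‖ρ‖) ^ 2 := pow_le_pow_left₀ h4.le (by linarith) 2
          calc r * ‖ρ‖ = r * ‖ρ‖⁻¹ * ‖ρ‖ ^ 2 := by field_simp
            _ ≤ _ := by gcongr
        linarith
      · rw [if_neg h5, mul_zero, add_zero]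
        push Not at h5
        have h8 : r * ‖ρ‖ / (r + ‖ρ‖) ^ 2 ≤ c0 c κ / r := by
          rw [div_le_div_iff₀ (by positivity) hr]
          have h9 : r ^ 2 ≤ (r + ‖ρ‖) ^ 2 := pow_le_pow_left₀ hr.le (by linarith) 2
          calc r * ‖ρ‖ * r = ‖ρ‖ * r ^ 2 := by ring
            _ ≤ c0 c κ * (r + ‖ρ‖) ^ 2 := by gcongr
        have : 0 ≤ 10 * r ^ 2 / c ^ 2 := by positivity
        rw [hA]
        linarith
    · push Not at h1
      rw [if_pos ((c0_le h).trans h1)]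
      have h2 := far_root (r := r) hr (ρ := ρ) (by linarith)
      have h3 := (le_abs_self _).trans ((Complex.abs_re_le_norm _).trans h2)
      rw [Complex.sub_re, Complex.re_ofReal_mul] at h3
      have h4 : 10 * r ^ 2 / ‖ρ‖ ^ 2 ≤ 10 * r ^ 2 / c ^ 2 := by gcongr
      have h5 : 0 ≤ c0 c κ / r := by positivity
      rw [hA]
      linarith
  have h1 := Multiset.sum_map_le_sum_map _ _ hbd
  rw [Multiset.sum_map_add, Multiset.map_const', Multiset.sum_replicate, nsmul_eq_mul,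
    Multiset.sum_map_mul_left, sum_ite_filter, ← e1] at h1
  have hcard := card_Z_le hP.toNice
  have hcardA : ((Z P).card : ℝ) * A ≤ L / 2 * A := mul_le_mul_of_nonneg_right (by linarith) hA0
  have hw : r / 4 ≤ wt r := by
    unfold wt
    rw [div_le_div_iff₀ (by norm_num) (by positivity)]
    have : (1 + r) ^ 2 ≤ 4 := by
      have h3 : r ≤ 1 := by linarith [h.hc1]
      nlinarith
    nlinarith
  have hLw : κ * L * (r / 4) ≤ κ * L * wt r := mul_le_mul_of_nonneg_left hw (by positivity)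
  have hAeq : (L : ℝ) / 2 * A = κ * L * r / 8 := by
    rw [hA]
    have e2 : c0 c κ = κ * r ^ 2 / 8 := by rw [hrdef]; rfl
    have e3 : r = κ * c ^ 2 / 80 := by rw [hrdef]; rfl
    have e4 : 10 * r ^ 2 / c ^ 2 = κ * r / 8 := by
      rw [div_eq_iff (by positivity)]
      nlinarith [e3]
    have e5 : c0 c κ / r = κ * r / 8 := by
      rw [e2, div_eq_iff hr.ne']
      ring
    rw [e4, e5]
    ring
  have hfin : κ * L * r / 8 ≤ r * ((fr c κ P).map fun ρ => (-ρ⁻¹).re).sum := by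
    unfold fr
    linarith
  exact le_of_mul_le_mul_left (by linarith : r * (κ / 8 * L) ≤ _) hr

theorem ev_one {b c T κ r₁ : ℝ} (h : Adm b c T κ) {L : ℕ} {P : ℝ[X]} (hP : H5 b c T κ r₁ L P)
    (hr1 : r₁ ≤ r1 c κ) (hr1i : r1 c κ ≤ r₁⁻¹) : κ / 8 * L ≤ ev c κ P 1 := by
  have h1 := lam_ge h hP hr1 hr1i
  unfold ev
  rw [esymm_one', fa, re_sum_map]
  exact h1

theorem pv_le {b c T κ r₁ : ℝ} (h : Adm b c T κ) {L : ℕ} {P : ℝ[X]} (hP : H5 b c T κ r₁ L P) (m : ℕ) :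
    |pv c κ P (m + 1)| ≤ (L : ℝ) / 2 * ((c0 c κ)⁻¹) ^ (m + 1) := by
  have hc0 := c0_pos h
  unfold pv
  refine (Complex.abs_re_le_norm _).trans ?_
  have h1 : ∀ s : Multiset ℂ, (∀ t ∈ s, ‖t‖ ≤ (c0 c κ)⁻¹) →
      ‖(s.map fun t => t ^ (m + 1)).sum‖ ≤ Multiset.card s * ((c0 c κ)⁻¹) ^ (m + 1) := by
    intro s
    induction s using Multiset.induction_on with
    | empty => simp
    | cons a s ih =>
      intro hs
      rw [Multiset.map_cons, Multiset.sum_cons, Multiset.card_cons]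
      have h2 := ih fun t ht => hs t (Multiset.mem_cons_of_mem ht)
      have h3 : ‖a ^ (m + 1)‖ ≤ ((c0 c κ)⁻¹) ^ (m + 1) := by
        rw [norm_pow]
        exact pow_le_pow_left₀ (norm_nonneg _) (hs a (Multiset.mem_cons_self _ _)) _
      refine (norm_add_le _ _).trans ?_
      push_cast
      linarith
  have h2 := h1 (fa c κ P) (by
    intro t ht
    unfold fa at ht
    obtain ⟨ρ, hρ, rfl⟩ := Multiset.mem_map.1 ht
    rw [norm_neg, norm_inv]
    exact inv_anti₀ hc0 (mem_fr.1 hρ).2)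
  refine h2.trans (mul_le_mul_of_nonneg_right ?_ (by positivity))
  have h3 : Multiset.card (fa c κ P) ≤ Multiset.card (Z P) := by
    unfold fa
    rw [Multiset.card_map, ← nr_add_fr c κ P, Multiset.card_add]
    omega
  have h4 := card_Z_le hP.toNice
  have h5 : (Multiset.card (fa c κ P) : ℝ) ≤ Multiset.card (Z P) := by exact_mod_cast h3
  linarith

theorem coeff_conv {b c T κ r₁ : ℝ} (h : Adm b c T κ) {L : ℕ} {P : ℝ[X]} (hP : H5 b c T κ r₁ L P) (k : ℕ) :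
    P.coeff k = P.coeff 0 * ∑ j ∈ Finset.range (k + 1), (na c κ P).esymm (k - j) * ev c κ P j := by
  have h0 : (P.map (algebraMap ℝ ℂ)).coeff 0 ≠ 0 := by
    rw [coeff_map]
    have := hP.one
    have h1 : P.coeff 0 ≠ 0 := by linarith
    exact Complex.ofReal_ne_zero.2 h1
  have h1 := Pool.Agent.Helper49.EV.coeff_eq _ h0 k
  have h2 : (P.map (algebraMap ℝ ℂ)).roots = nr c κ P + fr c κ P := (nr_add_fr c κ P).symm
  rw [h2, Multiset.map_add, Pool.Agent.Helper49.EV.esymm_add] at h1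
  have h3 : (nr c κ P).map (fun z => -z⁻¹) = (na c κ P).map (fun x : ℝ => (x : ℂ)) := by
    unfold na
    rw [Multiset.map_map]
    refine Multiset.map_congr rfl fun ρ hρ => ?_
    obtain ⟨h4, h5⟩ := mem_nr.1 hρ
    obtain ⟨him, hre⟩ := hP.neg ρ h4 (lt_of_lt_of_le h5 (c0_le h))
    obtain ⟨-, h6, -⟩ := real_root one_pos him hre
    simp only [Function.comp_apply]
    conv_lhs => rw [h6]
    push_cast
    rw [inv_neg, neg_neg]
  rw [h3] at h1
  have h4 : ((P.coeff k : ℝ) : ℂ) = ((P.coeff 0 * ∑ j ∈ Finset.range (k + 1),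
      (na c κ P).esymm (k - j) * ev c κ P j : ℝ) : ℂ) := by
    rw [coeff_map, coeff_map] at h1
    change (P.coeff k : ℂ) = (P.coeff 0 : ℂ) * _ at h1
    rw [h1]
    push_cast
    congr 1
    refine Finset.sum_congr rfl fun j _ => ?_
    rw [Pool.Agent.Helper49.EV.esymm_ofReal, ev_coe]
    rfl
  exact_mod_cast h4

/-- **Low coefficients.** -/
theorem low4 {b c T κ r₁ : ℝ} (h : Adm b c T κ) {L : ℕ} {P : ℝ[X]} (hP : H5 b c T κ r₁ L P)
    (hr1 : r₁ ≤ r1 c κ) (hr1i : r1 c κ ≤ r₁⁻¹) (k : ℕ) (hk1 : 1 ≤ k) (hk : (k : ℝ) + 1 ≤ del c κ * L) :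
    P.coeff (k - 1) * P.coeff (k + 1) ≤ P.coeff k ^ 2 := by
  have hκ := h.hκ
  have hc0 := c0_pos h
  have hc01 : c0 c κ ≤ 1 := (c0_le h).trans h.hc1
  have hL : (0 : ℝ) < L := by
    have h1 := del_pos h
    have h2 : (0 : ℝ) ≤ k := Nat.cast_nonneg k
    by_contra h3
    push Not at h3
    nlinarith
  have hlam := ev_one h hP hr1 hr1i
  have hlam0 : 0 < ev c κ P 1 := lt_of_lt_of_le (by positivity) hlam
  obtain ⟨D, hD⟩ : ∃ D : ℕ, D = k + 1 := ⟨_, rfl⟩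
  have hinc := incr (e := ev c κ P) (p := pv c κ P) (lam := ev c κ P 1) (A := 4 / κ) (T := (c0 c κ)⁻¹) hlam0
    (by rw [le_div_iff₀ hκ]; linarith [h.hκ1]) ((one_le_inv₀ hc0).2 hc01) (ev_zero c κ P) rfl
    (by
      intro m
      refine (pv_le h hP m).trans (mul_le_mul_of_nonneg_right ?_ (by positivity))
      rw [div_mul_eq_mul_div, le_div_iff₀ hκ]
      nlinarith) (newton_ev c κ P) D (by
      have h1 : ((c0 c κ)⁻¹) ^ 2 = 1 / c0 c κ ^ 2 := by rw [inv_pow, one_div]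
      rw [h1]
      have h2 : (D : ℝ) ≤ del c κ * L := by rw [hD]; push_cast; exact hk
      calc 32 * (4 / κ) * (1 / c0 c κ ^ 2) * (D : ℝ) ≤ 32 * (4 / κ) * (1 / c0 c κ ^ 2) * (del c κ * L) := by gcongr
        _ = κ / 8 * L := by
          unfold del
          field_simp
          norm_num
        _ ≤ _ := hlam)
  have hpos : ∀ j ≤ D, 0 < ev c κ P j := fun j hj => (hinc j hj).1
  have hlc : ∀ j, j + 2 ≤ D → ev c κ P j * ev c κ P (j + 2) ≤ ev c κ P (j + 1) ^ 2 := by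
    intro j hj
    obtain ⟨h1, h2, h3, -⟩ := hinc (j + 1) (by omega)
    have h4 : yq (ev c κ P) (j + 1) ≤ yq (ev c κ P) (j + 1 + 1) := by linarith
    change ev c κ P j / ev c κ P (j + 1) ≤ ev c κ P (j + 1) / ev c κ P (j + 2) at h4
    rw [div_le_div_iff₀ h1 h2] at h4
    nlinarith
  have hPF := (tr_PF2 hpos hlc).mul_lp (na_nonneg c κ P)
  have hco : ∀ n ≤ D, P.coeff n = P.coeff 0 * cz (lp (na c κ P) * tr (ev c κ P) D) (n : ℕ) := by
    intro n hn
    rw [cz_nat, coeff_conv h hP n, Polynomial.coeff_mul, Finset.Nat.sum_antidiagonal_eq_sum_range_succ_mk,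
      ← Finset.sum_range_reflect]
    congr 1
    refine Finset.sum_congr rfl fun j hj => ?_
    rw [Finset.mem_range] at hj
    rw [lp_coeff, tr_coeff, show n + 1 - 1 - j = n - j by omega, show n - (n - j) = j by omega]
    rw [if_pos (by omega)]
  have h1 := hPF.2 (k : ℤ) (k : ℤ) le_rfl
  obtain ⟨a, ha⟩ : ∃ a, a = cz (lp (na c κ P) * tr (ev c κ P) D) := ⟨_, rfl⟩
  rw [← ha] at h1
  have e1 : ((k : ℕ) : ℤ) - 1 = ((k - 1 : ℕ) : ℤ) := by omega
  have e2 : ((k : ℕ) : ℤ) + 1 = ((k + 1 : ℕ) : ℤ) := by push_cast; ring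
  rw [e1, e2] at h1
  rw [hco (k - 1) (by omega), hco (k + 1) (by omega), hco k (by omega), ← ha]
  have h0 := hP.one
  have h2 : 0 ≤ P.coeff 0 ^ 2 := sq_nonneg _
  nlinarith [mul_le_mul_of_nonneg_left h1 h2]

end Pool.Agent.Helper74.EV5
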