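import Pool.Agent.Helper74.EV5.Core6
import Pool.Agent.Helper74.EV5.Core5

/-!
# EV4d: mixtures of powers of `1 + t`

`P(t)` is a sum of weights `W i t ≥ 0`, and `|P|` at `t e^{iθ}` is at most the sum of the weights times
`(|1 + t e^{iθ}| / (1 + t)) ^ j i`. Then the variance is at least the mean of `j` times `t / (1 + t) ^ 2`.
-/

set_option autoImplicit false

namespace Pool.Agent.Helper74.EV5

open Polynomial EVC Pool.Agent.Helper74.EV4

/-- mixture of powers of `1 + t`, in absolute value -/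
structure Mix {ι : Type*} (P : ℝ[X]) (S : Finset ι) (W : ι → ℝ → ℝ) (j : ι → ℕ) : Prop where
  wnn : ∀ i ∈ S, ∀ t : ℝ, 0 < t → 0 ≤ W i t
  sum : ∀ t : ℝ, 0 < t → ∑ i ∈ S, W i t = P.eval t
  le : ∀ t θ : ℝ, 0 < t → ‖aeval (pt t θ) P‖ ≤ ∑ i ∈ S, W i t * (‖1 + pt t θ‖ / (1 + t)) ^ (j i)

theorem norm_one_add_pt (t θ : ℝ) : ‖1 + pt t θ‖ ^ 2 = 1 + 2 * t * Real.cos θ + t ^ 2 := by
  unfold pt
  rw [← Complex.normSq_eq_norm_sq, Complex.normSq_apply, Complex.add_re, Complex.add_im, Complex.re_ofReal_mul,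
    Complex.im_ofReal_mul, Complex.exp_ofReal_mul_I_re, Complex.exp_ofReal_mul_I_im, Complex.one_re, Complex.one_im]
  nlinarith [Real.sin_sq_add_cos_sq θ]

theorem ratio_le {t : ℝ} (ht : 0 < t) (θ : ℝ) :
    ‖1 + pt t θ‖ / (1 + t) ≤ Real.exp (-(wt t * (1 - Real.cos θ))) := by
  have h1 : (‖1 + pt t θ‖ / (1 + t)) ^ 2 = 1 - 2 * (wt t * (1 - Real.cos θ)) := by
    rw [div_pow, norm_one_add_pt]
    unfold wt
    field_simp
    ring
  have h2 : (‖1 + pt t θ‖ / (1 + t)) ^ 2 ≤ (Real.exp (-(wt t * (1 - Real.cos θ)))) ^ 2 := by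
    rw [h1, ← Real.exp_nat_mul]
    have h3 := Real.add_one_le_exp (((2 : ℕ) : ℝ) * -(wt t * (1 - Real.cos θ)))
    push_cast at h3 ⊢
    linarith
  exact le_of_sq_le_sq h2 (Real.exp_pos _).le

theorem ratio_nonneg {t : ℝ} (ht : 0 < t) (θ : ℝ) : 0 ≤ ‖1 + pt t θ‖ / (1 + t) := by positivity

theorem ratio_pow_le {t : ℝ} (ht : 0 < t) (θ : ℝ) (n : ℕ) :
    (‖1 + pt t θ‖ / (1 + t)) ^ n ≤ Real.exp (-(n * (wt t * (1 - Real.cos θ)))) := by
  have h1 := pow_le_pow_left₀ (ratio_nonneg ht θ) (ratio_le ht θ) n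
  rw [← Real.exp_nat_mul] at h1
  refine h1.trans (le_of_eq ?_)
  congr 1
  ring

theorem exp_neg_le {x : ℝ} (hx : 0 ≤ x) : Real.exp (-x) ≤ 1 - x + x ^ 2 := by
  have h1 := Real.add_one_le_exp x
  have h2 : Real.exp (-x) * Real.exp x = 1 := by rw [← Real.exp_add, neg_add_cancel, Real.exp_zero]
  have h3 : 0 < Real.exp (-x) := Real.exp_pos _
  have h4 : Real.exp (-x) * (x + 1) ≤ 1 := (mul_le_mul_of_nonneg_left h1 h3.le).trans h2.le
  have h5 : 1 ≤ (1 - x + x ^ 2) * (x + 1) := by nlinarith [mul_nonneg hx (sq_nonneg x)]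
  exact le_of_mul_le_mul_right (h4.trans h5) (by linarith)

variable {ι : Type*} {S : Finset ι} {W : ι → ℝ → ℝ} {j : ι → ℕ}

/-- **The variance of a mixture.** -/
theorem var_mix {b : ℝ} (hb : 0 < b) (hb1 : b ≤ 1) {L : ℕ} {P : ℝ[X]} (hP : Nice L P)
    (dist : ∀ ρ ∈ Z P, ∀ r : ℝ, 0 < r → b * (r + ‖ρ‖) ≤ ‖(r : ℂ) - ρ‖) (hM : Mix P S W j) {t : ℝ} (ht : 0 < t) :
    wt t * ∑ i ∈ S, W i t * (j i : ℝ) ≤ V P t * P.eval t := by
  obtain ⟨θ₂, hθ₂, K, hK, hlf⟩ := local_form (B := 1 / b) (by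
    rw [le_div_iff₀ hb]
    linarith)
  have hp : ∀ ρ ∈ Z P, ‖p t ρ‖ ≤ 1 / b := by
    intro ρ hρ
    have h1 := dist ρ hρ t ht
    have h2 : b * t ≤ ‖(t : ℂ) - ρ‖ := by
      refine le_trans ?_ h1
      have := norm_nonneg ρ
      nlinarith
    have h3 : 0 < ‖(t : ℂ) - ρ‖ := lt_of_lt_of_le (by positivity) h2
    unfold p
    rw [norm_div, Complex.norm_real, Real.norm_of_nonneg ht.le, div_le_div_iff₀ h3 hb]
    linarith
  have hPt := hP.eval_pos ht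
  have hw := Pool.Agent.Helper3.E4.wt_pos ht
  have hWn : 0 ≤ EVC.W P t := by
    unfold EVC.W
    apply Multiset.sum_nonneg
    intro x hx
    obtain ⟨ρ, -, rfl⟩ := Multiset.mem_map.1 hx
    exact norm_nonneg _
  obtain ⟨E, hE⟩ : ∃ E, E = ∑ i ∈ S, W i t * (j i : ℝ) := ⟨_, rfl⟩
  obtain ⟨E2, hE2⟩ : ∃ E2, E2 = ∑ i ∈ S, W i t * (j i : ℝ) ^ 2 := ⟨_, rfl⟩
  have hE0 : 0 ≤ E := by
    rw [hE]
    exact Finset.sum_nonneg fun i hi => mul_nonneg (hM.wnn i hi t ht) (Nat.cast_nonneg _)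
  have hE20 : 0 ≤ E2 := by
    rw [hE2]
    exact Finset.sum_nonneg fun i hi => mul_nonneg (hM.wnn i hi t ht) (by positivity)
  rw [← hE]
  -- the bound at one angle
  have key : ∀ θ : ℝ, |θ| ≤ θ₂ → wt t * (1 - Real.cos θ) * E ≤
      P.eval t * (θ ^ 2 / 2 * V P t + K * EVC.W P t * |θ| ^ 3) + (wt t * (1 - Real.cos θ)) ^ 2 * E2 := by
    intro θ hθ
    obtain ⟨w, hw1, hw2⟩ := hlf L P hP t ht hp θ hθ
    have h1 := hM.le t θ ht
    rw [hw2, norm_mul, Complex.norm_real, Real.norm_of_nonneg hPt.le, Complex.norm_exp] at h1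
    have hre : ((θ : ℂ) * (mean P t : ℂ) * Complex.I - (θ : ℂ) ^ 2 / 2 * (V P t : ℂ) + w).re =
        -(θ ^ 2 / 2 * V P t) + w.re := by
      have e1 : (θ : ℂ) ^ 2 / 2 * (V P t : ℂ) = ((θ ^ 2 / 2 * V P t : ℝ) : ℂ) := by
        push_cast
        ring
      have e2 : ((θ : ℂ) * (mean P t : ℂ) * Complex.I).re = 0 := by
        have : (θ : ℂ) * (mean P t : ℂ) * Complex.I = ((θ * mean P t : ℝ) : ℂ) * Complex.I := by
          push_cast
          ring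
        rw [this, Complex.re_ofReal_mul, Complex.I_re, mul_zero]
      rw [Complex.add_re, Complex.sub_re, e1, Complex.ofReal_re, e2]
      ring
    rw [hre] at h1
    have hwr : -‖w‖ ≤ w.re := (abs_le.1 (Complex.abs_re_le_norm _)).1
    have h2 := Real.add_one_le_exp (-(θ ^ 2 / 2 * V P t) + w.re)
    have h3 : P.eval t * (1 - (θ ^ 2 / 2 * V P t + K * EVC.W P t * |θ| ^ 3)) ≤
        P.eval t * Real.exp (-(θ ^ 2 / 2 * V P t) + w.re) :=
      mul_le_mul_of_nonneg_left (by linarith) hPt.le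
    obtain ⟨x, hx⟩ : ∃ x, x = wt t * (1 - Real.cos θ) := ⟨_, rfl⟩
    have hx0 : 0 ≤ x := by
      rw [hx]
      exact mul_nonneg hw.le (by linarith [Real.cos_le_one θ])
    rw [← hx]
    have h4 : ∑ i ∈ S, W i t * (‖1 + pt t θ‖ / (1 + t)) ^ (j i) ≤
        ∑ i ∈ S, (W i t - x * (W i t * (j i : ℝ)) + x ^ 2 * (W i t * (j i : ℝ) ^ 2)) := by
      refine Finset.sum_le_sum fun i hi => ?_
      have h5 := ratio_pow_le ht θ (j i)
      rw [← hx] at h5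
      have h6 := exp_neg_le (x := (j i : ℝ) * x) (by positivity)
      have h7 := mul_le_mul_of_nonneg_left (h5.trans h6) (hM.wnn i hi t ht)
      refine h7.trans (le_of_eq ?_)
      ring
    rw [Finset.sum_add_distrib, Finset.sum_sub_distrib, ← Finset.mul_sum, ← Finset.mul_sum, hM.sum t ht, ← hE,
      ← hE2] at h4
    nlinarith [h1, h3, h4]
  -- the limit
  refine le_of_forall_pos_le_add fun ε hε => ?_
  obtain ⟨A, hA⟩ : ∃ A, A = 2 * K * EVC.W P t * P.eval t + wt t ^ 2 * E2 + wt t * E := ⟨_, rfl⟩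
  have hA0 : 0 ≤ A := by rw [hA]; positivity
  obtain ⟨θ, hθ⟩ : ∃ θ, θ = min (min θ₂ 1) (ε / (A + 1)) := ⟨_, rfl⟩
  have hθ0 : 0 < θ := by
    rw [hθ]
    exact lt_min (lt_min hθ₂ one_pos) (by positivity)
  have hθ1 : θ ≤ θ₂ := by rw [hθ]; exact (min_le_left _ _).trans (min_le_left _ _)
  have hθ2 : θ ≤ 1 := by rw [hθ]; exact (min_le_left _ _).trans (min_le_right _ _)
  have hθ3 : θ * (A + 1) ≤ ε := by
    rw [← le_div_iff₀ (by positivity), hθ]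
    exact min_le_right _ _
  have h1 := key θ (by rw [abs_of_pos hθ0]; exact hθ1)
  rw [abs_of_pos hθ0] at h1
  have hcos := (abs_le.1 (Real.cos_bound (x := θ) (by rw [abs_of_pos hθ0]; exact hθ2))).2
  rw [abs_of_pos hθ0] at hcos
  have hcos2 := Helper92.EV.one_sub_cos_upper θ
  have hcos3 : 0 ≤ 1 - Real.cos θ := by linarith [Real.cos_le_one θ]
  have h2 : wt t * E * (θ ^ 2 / 2 - θ ^ 4 * (5 / 96)) ≤ wt t * (1 - Real.cos θ) * E := by
    have h3 : wt t * E * (θ ^ 2 / 2 - θ ^ 4 * (5 / 96)) ≤ wt t * E * (1 - Real.cos θ) :=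
      mul_le_mul_of_nonneg_left (by linarith) (by positivity)
    linarith
  have h3 : (wt t * (1 - Real.cos θ)) ^ 2 * E2 ≤ wt t ^ 2 * E2 * (θ ^ 3 / 4) := by
    have h4 : (1 - Real.cos θ) ^ 2 ≤ (θ ^ 2 / 2) ^ 2 := pow_le_pow_left₀ hcos3 hcos2 2
    have h5 : (θ ^ 2 / 2) ^ 2 ≤ θ ^ 3 / 4 := by
      have h6 : θ ^ 4 ≤ θ ^ 3 := pow_le_pow_of_le_one hθ0.le hθ2 (by norm_num)
      nlinarith
    calc (wt t * (1 - Real.cos θ)) ^ 2 * E2 = wt t ^ 2 * E2 * (1 - Real.cos θ) ^ 2 := by ring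
      _ ≤ wt t ^ 2 * E2 * (θ ^ 3 / 4) := mul_le_mul_of_nonneg_left (h4.trans h5) (by positivity)
  have h4 : wt t * E * (θ ^ 4 * (5 / 96)) ≤ wt t * E * (θ ^ 3 / 2) := by
    have h6 : θ ^ 4 ≤ θ ^ 3 := pow_le_pow_of_le_one hθ0.le hθ2 (by norm_num)
    have h7 : 0 ≤ θ ^ 3 := by positivity
    exact mul_le_mul_of_nonneg_left (by linarith) (by positivity)
  have h5 : θ ^ 2 / 2 * (wt t * E) ≤ θ ^ 2 / 2 * (V P t * P.eval t + ε) := by
    have h6 : θ ^ 2 / 2 * (θ * (A + 1)) ≤ θ ^ 2 / 2 * ε := mul_le_mul_of_nonneg_left hθ3 (by positivity)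
    have h7 : 0 ≤ wt t ^ 2 * E2 * θ ^ 3 := by positivity
    have h8 : θ ^ 2 / 2 * (θ * (A + 1)) = K * EVC.W P t * P.eval t * θ ^ 3 + wt t ^ 2 * E2 * (θ ^ 3 / 2) +
        wt t * E * (θ ^ 3 / 2) + θ ^ 3 / 2 := by
      rw [hA]
      ring
    have h9 : 0 ≤ θ ^ 3 := by positivity
    have h10 : wt t * E * (θ ^ 2 / 2 - θ ^ 4 * (5 / 96)) = θ ^ 2 / 2 * (wt t * E) - wt t * E * (θ ^ 4 * (5 / 96)) := by
      ring
    have h11 : P.eval t * (θ ^ 2 / 2 * V P t + K * EVC.W P t * θ ^ 3) =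
        θ ^ 2 / 2 * (V P t * P.eval t) + K * EVC.W P t * P.eval t * θ ^ 3 := by ring
    linarith
  exact le_of_mul_le_mul_left h5 (by positivity)

/-- lower tail of `j` -/
noncomputable def tail (S : Finset ι) (W : ι → ℝ → ℝ) (j : ι → ℕ) (k t : ℝ) : ℝ :=
  ∑ i ∈ S with (j i : ℝ) ≤ k, W i t

theorem var_tail {b : ℝ} (hb : 0 < b) (hb1 : b ≤ 1) {L : ℕ} {P : ℝ[X]} (hP : Nice L P)
    (dist : ∀ ρ ∈ Z P, ∀ r : ℝ, 0 < r → b * (r + ‖ρ‖) ≤ ‖(r : ℂ) - ρ‖) (hM : Mix P S W j) {t : ℝ} (ht : 0 < t)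
    {k τ : ℝ} (hk : 0 ≤ k) (hτ : τ ≤ 1 / 2) (hT : tail S W j k t ≤ τ * P.eval t) : k / 2 * wt t ≤ V P t := by
  have hPt := hP.eval_pos ht
  have hw := Pool.Agent.Helper3.E4.wt_pos ht
  have h1 := var_mix hb hb1 hP dist hM ht
  have h2 := hM.sum t ht
  rw [← Finset.sum_filter_add_sum_filter_not S (fun i => (j i : ℝ) ≤ k)] at h2
  have h3 : k * ∑ i ∈ S with ¬ (j i : ℝ) ≤ k, W i t ≤ ∑ i ∈ S, W i t * (j i : ℝ) := by
    rw [← Finset.sum_filter_add_sum_filter_not S (fun i => (j i : ℝ) ≤ k), Finset.mul_sum]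
    have h4 : 0 ≤ ∑ i ∈ S with (j i : ℝ) ≤ k, W i t * (j i : ℝ) :=
      Finset.sum_nonneg fun i hi => mul_nonneg (hM.wnn i (Finset.mem_of_mem_filter i hi) t ht) (Nat.cast_nonneg _)
    have h5 : ∑ i ∈ S with ¬ (j i : ℝ) ≤ k, k * W i t ≤ ∑ i ∈ S with ¬ (j i : ℝ) ≤ k, W i t * (j i : ℝ) := by
      refine Finset.sum_le_sum fun i hi => ?_
      obtain ⟨h6, h7⟩ := Finset.mem_filter.1 hi
      push Not at h7
      rw [mul_comm]
      exact mul_le_mul_of_nonneg_left h7.le (hM.wnn i h6 t ht)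
    linarith
  have h4 : P.eval t / 2 ≤ ∑ i ∈ S with ¬ (j i : ℝ) ≤ k, W i t := by
    have h5 : τ * P.eval t ≤ 1 / 2 * P.eval t := mul_le_mul_of_nonneg_right hτ hPt.le
    unfold tail at hT
    linarith
  have h5 : wt t * (k * (P.eval t / 2)) ≤ V P t * P.eval t := by
    refine le_trans (mul_le_mul_of_nonneg_left ?_ hw.le) h1
    exact (mul_le_mul_of_nonneg_left h4 hk).trans h3
  exact le_of_mul_le_mul_right (by linarith : k / 2 * wt t * P.eval t ≤ _) hPt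

theorem dec_tail {P : ℝ[X]} (hM : Mix P S W j) {t : ℝ} (ht : 0 < t)
    {k τ θ : ℝ} (hT : tail S W j k t ≤ τ * P.eval t) :
    ‖aeval (pt t θ) P‖ ≤ (τ + Real.exp (-(k * wt t * (1 - Real.cos θ)))) * P.eval t := by
  refine (hM.le t θ ht).trans ?_
  have hw := Pool.Agent.Helper3.E4.wt_pos ht
  have hu : 0 ≤ 1 - Real.cos θ := by linarith [Real.cos_le_one θ]
  rw [← Finset.sum_filter_add_sum_filter_not S (fun i => (j i : ℝ) ≤ k)]
  have hr1 : ∀ n : ℕ, (‖1 + pt t θ‖ / (1 + t)) ^ n ≤ 1 := by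
    intro n
    refine (ratio_pow_le ht θ n).trans (Real.exp_le_one_iff.2 ?_)
    have : 0 ≤ (n : ℝ) * (wt t * (1 - Real.cos θ)) := by positivity
    linarith
  have h1 : ∑ i ∈ S with (j i : ℝ) ≤ k, W i t * (‖1 + pt t θ‖ / (1 + t)) ^ (j i) ≤ τ * P.eval t := by
    refine le_trans (Finset.sum_le_sum fun i hi => ?_) hT
    exact mul_le_of_le_one_right (hM.wnn i (Finset.mem_of_mem_filter i hi) t ht) (hr1 _)
  have h2 : ∑ i ∈ S with ¬ (j i : ℝ) ≤ k, W i t * (‖1 + pt t θ‖ / (1 + t)) ^ (j i) ≤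
      Real.exp (-(k * wt t * (1 - Real.cos θ))) * P.eval t := by
    have h3 : ∑ i ∈ S with ¬ (j i : ℝ) ≤ k, W i t * (‖1 + pt t θ‖ / (1 + t)) ^ (j i) ≤
        ∑ i ∈ S with ¬ (j i : ℝ) ≤ k, W i t * Real.exp (-(k * wt t * (1 - Real.cos θ))) := by
      refine Finset.sum_le_sum fun i hi => ?_
      obtain ⟨h6, h7⟩ := Finset.mem_filter.1 hi
      push Not at h7
      refine mul_le_mul_of_nonneg_left ((ratio_pow_le ht θ _).trans (Real.exp_le_exp.2 (neg_le_neg ?_)))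
        (hM.wnn i h6 t ht)
      rw [mul_assoc]
      exact mul_le_mul_of_nonneg_right h7.le (by positivity)
    refine h3.trans ?_
    rw [← Finset.sum_mul, mul_comm]
    refine mul_le_mul_of_nonneg_left ?_ (Real.exp_pos _).le
    rw [← hM.sum t ht]
    exact Finset.sum_le_sum_of_subset_of_nonneg (Finset.filter_subset _ _) fun i hi _ => hM.wnn i hi t ht
  linarith

/-- the input: positions of the roots and a mixture with a small lower tail -/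
structure Inp (b c T η γ r₁ : ℝ) (L : ℕ) (P : ℝ[X]) (S : Finset ι) (W : ι → ℝ → ℝ) (j : ι → ℕ) : Prop
    extends EVC.Nice L P, Mix P S W j where
  dist : ∀ ρ ∈ EVC.Z P, ∀ r : ℝ, 0 < r → b * (r + ‖ρ‖) ≤ ‖(r : ℂ) - ρ‖
  far : ∀ ρ ∈ EVC.Z P, ‖ρ‖ ≤ T
  neg : ∀ ρ ∈ EVC.Z P, ‖ρ‖ < c → ρ.im = 0 ∧ ρ.re < 0
  tl : ∀ t : ℝ, r₁ ≤ t → t ≤ r₁⁻¹ → tail S W j (η * L) t ≤ Real.exp (-(γ * L)) * P.eval t

/-- **The core for mixtures, from the core of E5.** -/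
theorem core_mix_of
    (E5 : ∀ b c T κ : ℝ, Pool.Agent.Helper85.E5.Adm b c T κ → ∃ L₀ : ℕ, ∀ L : ℕ, L₀ ≤ L → ∀ P : ℝ[X],
      Pool.Agent.Helper85.E5.Hyp b c T κ L P → ∀ k : ℕ, 1 ≤ k → P.coeff (k - 1) * P.coeff (k + 1) ≤ P.coeff k ^ 2)
    (b c T η : ℝ) (h : Adm b c T η) : ∃ r₁ : ℝ, 0 < r₁ ∧ r₁ ≤ 1 ∧ ∀ γ : ℝ, 0 < γ → ∃ L₀ : ℕ, ∀ L : ℕ, L₀ ≤ L →
      ∀ (P : ℝ[X]) (ι : Type) (S : Finset ι) (W : ι → ℝ → ℝ) (j : ι → ℕ), Inp b c T η γ r₁ L P S W j →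
        ∀ k : ℕ, 1 ≤ k → P.coeff (k - 1) * P.coeff (k + 1) ≤ P.coeff k ^ 2 := by
  have hη := h.hκ
  have hA : Adm b c T (η / 2) := ⟨h.hb, h.hb1, h.hc, h.hc1, h.hT, by positivity, by linarith [h.hκ1]⟩
  obtain ⟨r₁, θ₀, hr0, hr1, hθ0, hθ1, hcore⟩ := core6_of E5 b c T (η / 2) hA
  refine ⟨r₁, hr0, hr1, fun γ hγ => ?_⟩
  obtain ⟨w, hw⟩ : ∃ w, w = r₁ / (1 + r₁⁻¹) ^ 2 := ⟨_, rfl⟩
  have hw0 : 0 < w := by rw [hw]; positivity
  obtain ⟨g, hg⟩ : ∃ g, g = min γ (η * w * (θ₀ ^ 2 / 5)) := ⟨_, rfl⟩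
  have hg0 : 0 < g := by rw [hg]; exact lt_min hγ (by positivity)
  have hg1 : g ≤ γ := by rw [hg]; exact min_le_left _ _
  have hg2 : g ≤ η * w * (θ₀ ^ 2 / 5) := by rw [hg]; exact min_le_right _ _
  obtain ⟨L0, hL0⟩ := hcore (g / 2) (by positivity)
  obtain ⟨L1, hL1⟩ := exists_nat_ge (2 / g)
  refine ⟨max L0 L1, fun L hL P ι S W j hP => ?_⟩
  have hLa : L0 ≤ L := (le_max_left _ _).trans hL
  have hLb : (L1 : ℝ) ≤ L := by exact_mod_cast (le_max_right _ _).trans hL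
  have hLn : (0 : ℝ) ≤ L := Nat.cast_nonneg L
  have hgL : 2 ≤ g * L := by
    have h1 := hL1.trans hLb
    rw [div_le_iff₀ hg0] at h1
    linarith
  have e2 : 2 ≤ Real.exp (g / 2 * L) := by
    have := Real.add_one_le_exp (g / 2 * L)
    linarith
  have e3 : Real.exp (-(g * L)) * 2 ≤ Real.exp (-(g / 2 * L)) := by
    have h1 : Real.exp (-(g * L)) * Real.exp (g / 2 * L) = Real.exp (-(g / 2 * L)) := by
      rw [← Real.exp_add]
      congr 1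
      ring
    rw [← h1]
    exact mul_le_mul_of_nonneg_left e2 (Real.exp_pos _).le
  have eγ : Real.exp (-(γ * L)) ≤ Real.exp (-(g * L)) :=
    Real.exp_le_exp.2 (neg_le_neg (mul_le_mul_of_nonneg_right hg1 hLn))
  refine hL0 L hLa P ⟨hP.toNice, hP.dist, hP.far, hP.neg, ?_⟩ ?_
  · intro t ht1 ht2
    have ht : 0 < t := lt_of_lt_of_le hr0 ht1
    have h1 := var_tail h.hb h.hb1 hP.toNice hP.dist hP.toMix ht (k := η * L) (by positivity) (τ := Real.exp (-(γ * L))) (by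
      have h2 : Real.exp (-(γ * L)) * 2 ≤ 1 := by
        refine le_trans ?_ (e3.trans (Real.exp_le_one_iff.2 (by linarith)))
        exact mul_le_mul_of_nonneg_right eγ (by norm_num)
      linarith) (hP.tl t ht1 ht2)
    have e1 : η * L / 2 * wt t = η / 2 * L * wt t := by ring
    rw [e1] at h1
    exact h1
  · intro t θ ht1 ht2 hθa hθb
    have ht : 0 < t := lt_of_lt_of_le hr0 ht1
    have hPt := hP.toNice.eval_pos ht
    refine (dec_tail hP.toMix ht (θ := θ) (hP.tl t ht1 ht2)).trans (mul_le_mul_of_nonneg_right ?_ hPt.le)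
    refine le_trans ?_ e3
    have h1 : Real.exp (-(η * L * wt t * (1 - Real.cos θ))) ≤ Real.exp (-(g * L)) := by
      refine Real.exp_le_exp.2 (neg_le_neg ?_)
      have h2 : w ≤ wt t := by
        rw [hw]
        unfold wt
        have h3 : (1 + t) ^ 2 ≤ (1 + r₁⁻¹) ^ 2 := pow_le_pow_left₀ (by linarith) (by linarith) 2
        exact div_le_div₀ ht.le ht1 (by positivity) h3
      have h3 : θ₀ ^ 2 / 5 ≤ 1 - Real.cos θ := by
        have h4 := Helper92.EV.one_sub_cos_lower (abs_nonneg θ) hθb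
        rw [Real.cos_abs, sq_abs] at h4
        have h5 : θ₀ ^ 2 ≤ θ ^ 2 := by
          rw [← sq_abs θ]
          exact pow_le_pow_left₀ hθ0.le hθa 2
        linarith
      calc g * L ≤ η * w * (θ₀ ^ 2 / 5) * L := mul_le_mul_of_nonneg_right hg2 hLn
        _ = η * L * w * (θ₀ ^ 2 / 5) := by ring
        _ ≤ η * L * wt t * (1 - Real.cos θ) := by
          have h4 : η * L * w ≤ η * L * wt t := mul_le_mul_of_nonneg_left h2 (by positivity)
          have h5 : 0 ≤ η * L * wt t := le_trans (by positivity) h4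
          exact mul_le_mul h4 h3 (by positivity) h5
    linarith

end Pool.Agent.Helper74.EV5
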