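import Pool.Agent.Helper3.E4.Var
import Pool.Agent.Helper3.EVC.E14
import Pool.Agent.Helper74.EV5.Hyp

/-!
# EV4d core: second absolute moment; strict log-concavity where the variance is large
-/

set_option autoImplicit false

namespace Pool.Agent.Helper74.EV5

open Polynomial EVC Pool.Agent.Helper74.EV4 Pool.Agent.Helper3.E4

variable {b c T κ r₁ : ℝ}

theorem dist_pos (hA : Adm b c T κ) {L : ℕ} {P : ℝ[X]} (h : H5 b c T κ r₁ L P) {r : ℝ} (hr : 0 < r)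
    {ρ : ℂ} (hρ : ρ ∈ Z P) : 0 < ‖(r : ℂ) - ρ‖ := by
  have h1 := h.dist ρ hρ r hr
  have h2 := hA.hb
  have h3 := norm_nonneg ρ
  exact lt_of_lt_of_le (by positivity) h1

theorem norm_p_le (hA : Adm b c T κ) {L : ℕ} {P : ℝ[X]} (h : H5 b c T κ r₁ L P) {r : ℝ} (hr : 0 < r)
    {ρ : ℂ} (hρ : ρ ∈ Z P) : ‖p r ρ‖ ≤ 1 / b := by
  have h1 := h.dist ρ hρ r hr
  have hb := hA.hb
  have h2 : b * r ≤ ‖(r : ℂ) - ρ‖ := by
    refine le_trans ?_ h1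
    have := norm_nonneg ρ
    nlinarith
  have h3 := dist_pos hA h hr hρ
  unfold p
  rw [norm_div, Complex.norm_real, Real.norm_of_nonneg hr.le, div_le_div_iff₀ h3 hb]
  linarith

/-- far roots -/
theorem norm_q_far (hA : Adm b c T κ) {L : ℕ} {P : ℝ[X]} (h : H5 b c T κ r₁ L P) {r : ℝ}
    (hr : 0 < r) {ρ : ℂ} (hρ : ρ ∈ Z P) (hc : c ≤ ‖ρ‖) :
    ‖p r ρ * (1 - p r ρ)‖ ≤ K0 b c T * wt r := by
  have h3 := dist_pos hA h hr hρ
  have hb := hA.hb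
  have hc0 := hA.hc
  have hc1 := hA.hc1
  have h0 : (r : ℂ) - ρ ≠ 0 := norm_pos_iff.1 h3
  have h1 := h.dist ρ hρ r hr
  have hT := h.far ρ hρ
  obtain ⟨x, hx⟩ : ∃ x, x = ‖ρ‖ := ⟨_, rfl⟩
  rw [norm_q hr h0, ← hx]
  rw [← hx] at h1 hT hc
  have hx0 : 0 < x := lt_of_lt_of_le hc0 hc
  have h4 : (b * (r + x)) ^ 2 ≤ ‖(r : ℂ) - ρ‖ ^ 2 := pow_le_pow_left₀ (by positivity) h1 2
  have h5 : r * x / ‖(r : ℂ) - ρ‖ ^ 2 ≤ r * x / (b * (r + x)) ^ 2 :=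
    div_le_div_of_nonneg_left (by positivity) (by positivity) h4
  refine h5.trans ?_
  unfold K0 wt
  rw [div_mul_div_comm, div_le_div_iff₀ (by positivity) (by positivity)]
  have h6 : c * (1 + r) ≤ r + x := by nlinarith
  have h7 : (c * (1 + r)) ^ 2 ≤ (r + x) ^ 2 := pow_le_pow_left₀ (by positivity) h6 2
  have h8 : x * (c * (1 + r)) ^ 2 ≤ T * (r + x) ^ 2 := by
    have h9 : 0 ≤ (r + x) ^ 2 := sq_nonneg _
    calc x * (c * (1 + r)) ^ 2 ≤ x * (r + x) ^ 2 := mul_le_mul_of_nonneg_left h7 hx0.le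
      _ ≤ T * (r + x) ^ 2 := mul_le_mul_of_nonneg_right hT h9
  have h9 : 0 ≤ r * b ^ 2 := by positivity
  calc r * x * (b ^ 2 * c ^ 2 * (1 + r) ^ 2) = r * b ^ 2 * (x * (c * (1 + r)) ^ 2) := by ring
    _ ≤ r * b ^ 2 * (T * (r + x) ^ 2) := mul_le_mul_of_nonneg_left h8 h9
    _ = T * r * (b * (r + x)) ^ 2 := by ring

theorem q_bound (hA : Adm b c T κ) {L : ℕ} {P : ℝ[X]} (h : H5 b c T κ r₁ L P) {r : ℝ}
    (hr : 0 < r) {ρ : ℂ} (hρ : ρ ∈ Z P) :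
    ‖p r ρ * (1 - p r ρ)‖ ≤ (p r ρ * (1 - p r ρ)).re + 2 * (K0 b c T * wt r) := by
  have hK := K0_pos hA
  have hw := wt_pos hr
  rcases lt_or_ge ‖ρ‖ c with h1 | h1
  · obtain ⟨h2, h3⟩ := h.neg ρ hρ h1
    obtain ⟨h4, -⟩ := q_near hr h2 h3
    have h5 : (p r ρ * (1 - p r ρ)).re = ‖p r ρ * (1 - p r ρ)‖ := by
      conv_lhs => rw [h4]
      exact Complex.ofReal_re _
    rw [h5]
    have : 0 ≤ K0 b c T * wt r := by positivity
    linarith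
  · have h2 := norm_q_far hA h hr hρ h1
    have h3 : -‖p r ρ * (1 - p r ρ)‖ ≤ (p r ρ * (1 - p r ρ)).re :=
      (abs_le.1 (Complex.abs_re_le_norm _)).1
    linarith

theorem W_le_add (hA : Adm b c T κ) {L : ℕ} {P : ℝ[X]} (h : H5 b c T κ r₁ L P) {r : ℝ}
    (hr : 0 < r) : W P r ≤ V P r + K0 b c T * (L * wt r) := by
  have hK := K0_pos hA
  have hw := wt_pos hr
  have h1 : W P r ≤ ((Z P).map fun ρ => (p r ρ * (1 - p r ρ)).re + 2 * (K0 b c T * wt r)).sum := by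
    unfold W
    exact Multiset.sum_map_le_sum_map _ _ fun ρ hρ => q_bound hA h hr hρ
  rw [Multiset.sum_map_add, ← V_re, Multiset.map_const', Multiset.sum_replicate, nsmul_eq_mul]
    at h1
  have h2 := card_le h.toNice
  have h3 : 2 * ((Z P).card : ℝ) * (K0 b c T * wt r) ≤ L * (K0 b c T * wt r) :=
    mul_le_mul_of_nonneg_right h2 (by positivity)
  linarith

end Pool.Agent.Helper74.EV5
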